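import Pool.Agent.H1.LD.Qd

/-!
The square function of dimension seven: definitions.
-/

set_option autoImplicit false

open MeasureTheory Filter Topology Metric Set
open scoped RealInnerProductSpace ENNReal

namespace Pool.Agent.H48.R7

open Pool.Agent.RZ Pool.Agent.H1.LD

variable {d : ℕ}

/-- `α` plus the Euler operator about `z`, applied to the Gaussian `exp (-β |x - Y|^2)` in `x` -/
noncomputable def ek (α β : ℝ) (z x Y : X d) : ℝ := (α - 2 * β * ⟪x - z, x - Y⟫) * ga β (x - Y)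

/-- the scalar kernel of dimension seven, integrated against the measure -/
noncomputable def K7 (μ : Measure (X d)) (z : X d) (β : ℝ) (Y : X d) : ℝ :=
  ∫ x, ‖x - z‖⁻¹ ^ 6 * ek 1 β z x Y ∂μ

/-- the square function -/
noncomputable def Q7 (μ : Measure (X d)) (z : X d) (t : ℝ) : ℝ≥0∞ :=
  ENNReal.ofReal ((t ^ d * gc d 4)⁻¹ * t⁻¹ ^ 2) * ∫⁻ Y, ‖K7 μ z (2 / t ^ 2) Y‖ₑ ^ 2

/-- measures for which all kernels are absolutely integrable -/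
def Nice7 (ν : Measure (X d)) : Prop :=
  IsFiniteMeasure ν ∧ ∃ C : ℝ, ∀ p : X d, ∫⁻ x, ‖x - p‖ₑ⁻¹ ^ 7 ∂ν ≤ ENNReal.ofReal C

/-- the Riesz transform of dimension seven of a nice measure -/
noncomputable def F7 (ν : Measure (X d)) (z : X d) : X d := ∫ x, ‖z - x‖⁻¹ ^ 8 • (z - x) ∂ν

/-- the weight of the pair `(a, b)` at scale `t`: `(E_a + α) (E_b + α) exp (-|a - b|^2 / t^2)` -/
noncomputable def mta (α : ℝ) (a b : X d) (t : ℝ) : ℝ :=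
  (α ^ 2 - 2 * α * ‖a - b‖ ^ 2 / t ^ 2 + 2 * ⟪a, b⟫ / t ^ 2 +
    4 * (⟪a, a - b⟫ * ⟪b, b - a⟫) / t ^ 4) * Real.exp (-(‖a - b‖ ^ 2 / t ^ 2))

/-- `∫ mta 1 a b t * t^{-3} dt` -/
noncomputable def i1 (a b : X d) : ℝ :=
  -(1 / 2) * ‖a - b‖⁻¹ ^ 2 + ⟪a, b⟫ * ‖a - b‖⁻¹ ^ 4 +
    4 * (⟪a, a - b⟫ * ⟪b, b - a⟫) * ‖a - b‖⁻¹ ^ 6

/-- `∫ mta 2 a b t * t^{-5} dt` -/
noncomputable def i2 (a b : X d) : ℝ :=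
  -2 * ‖a - b‖⁻¹ ^ 4 + 2 * ⟪a, b⟫ * ‖a - b‖⁻¹ ^ 6 +
    12 * (⟪a, a - b⟫ * ⟪b, b - a⟫) * ‖a - b‖⁻¹ ^ 8

/-- the certificate -/
noncomputable def W7 (a b : X d) : ℝ :=
  (1 / 3) * (‖a‖⁻¹ ^ 6 * ‖b‖⁻¹ ^ 6 * i1 a b) +
    (2 / 3) * (‖a‖⁻¹ ^ 8 * ‖b‖⁻¹ ^ 8 * ⟪a, b⟫ ^ 3 * i2 a b)

/-- the symmetric product of two Riesz kernels -/
noncomputable def L7 (a b : X d) : ℝ := ‖a‖⁻¹ ^ 8 * ‖b‖⁻¹ ^ 8 * ⟪a, b⟫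

/-- the first time integrand -/
noncomputable def f1 (z : X d) (p : X d × X d) (t : ℝ) : ℝ :=
  ‖p.1 - z‖⁻¹ ^ 6 * ‖p.2 - z‖⁻¹ ^ 6 * (mta 1 (p.1 - z) (p.2 - z) t * t⁻¹ ^ 3)

/-- the second time integrand -/
noncomputable def f2 (z : X d) (p : X d × X d) (t : ℝ) : ℝ :=
  ‖p.1 - z‖⁻¹ ^ 8 * ‖p.2 - z‖⁻¹ ^ 8 * ⟪p.1 - z, p.2 - z⟫ ^ 3 *
    (mta 2 (p.1 - z) (p.2 - z) t * t⁻¹ ^ 5)

/-- the majorant of all triple integrals -/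
noncomputable def S7 (q : X d × (X d × X d)) : ℝ :=
  ‖q.2.1 - q.1‖⁻¹ ^ 7 * ‖q.2.2 - q.1‖⁻¹ ^ 7 + ‖q.2.1 - q.1‖⁻¹ ^ 7 * ‖q.2.1 - q.2.2‖⁻¹ ^ 7 +
    ‖q.2.2 - q.1‖⁻¹ ^ 7 * ‖q.2.1 - q.2.2‖⁻¹ ^ 7

end Pool.Agent.H48.R7
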