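import Pool.Agent.H48.R7.Defs
import Pool.Agent.H1.LD.KerA

/-!
Copy of Pool/Agent/H1/LD/KerA.lean (its private theorem KerA_gen must be copied with the prefix
Tim_).  time_int7: antiderivatives in s = c²/t²: for t⁻⁷: Φ(s) = (s² + 2 s + 2) e^{-s} / (2 c⁶),
Φ' = -s² e^{-s}/(2c⁶), Φ(0) = 1/c⁶; for t⁻⁹: Φ(s) = (s³ + 3 s² + 6 s + 6) e^{-s} / (2 c⁸),
Φ' = -s³ e^{-s} / (2 c⁸), Φ(0) = 3/c⁸.
mta_int1: mta 1 a b t * t⁻³ = [t⁻³ + (-2c² + 2p) t⁻⁵ + 4 P R t⁻⁷] e^{-c²/t²} with c = ‖a-b‖,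
p = ⟪a,b⟫, P = ⟪a,a-b⟫, R = ⟪b,b-a⟫; the integrals of t⁻³, t⁻⁵ are in time_int (KerA):
1/(2c²), 1/(2c⁴).  Bound: 1/(2c²) + 2c²/(2c⁴) + 2|p|/(2c⁴) + 4|PR|/c⁶ with |p| ≤ ‖a‖‖b‖ and
|PR| ≤ ‖a‖‖b‖c².
mta_int2: mta 2 a b t * t⁻⁵ = [4 t⁻⁵ + (-4c² + 2p) t⁻⁷ + 4 P R t⁻⁹] e^{-c²/t²}; bound
4/(2c⁴) + 4c²/c⁶ + 2|p|/c⁶ + 12|PR|/c⁸.
-/

set_option autoImplicit false

open MeasureTheory Filter Topology Metric Set
open scoped RealInnerProductSpace ENNReal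

namespace Pool.Agent.H48.R7

open Pool.Agent.RZ Pool.Agent.H1.LD

variable {d : ℕ}

/-- generic: `t ↦ Φ (c^2 / t^2)` is an antiderivative on `(0, ∞)` -/
private theorem Tim_gen {c : ℝ} (hc : 0 < c) {Φ Φ' f : ℝ → ℝ} (hΦ : ∀ s, HasDerivAt Φ (Φ' s) s)
    (h0 : Tendsto Φ atTop (𝓝 0))
    (hf : ∀ t : ℝ, 0 < t → f t = Φ' (c ^ 2 / t ^ 2) * (-2 * c ^ 2 / t ^ 3))
    (hn : ∀ t : ℝ, 0 < t → 0 ≤ f t) :
    IntegrableOn f (Ioi 0) ∧ ∫ t in Ioi (0 : ℝ), f t = Φ 0 := by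
  set g : ℝ → ℝ := fun t => if t ≤ 0 then 0 else Φ (c ^ 2 / t ^ 2) with hg
  have hd : ∀ t ∈ Ioi (0 : ℝ), HasDerivAt g (f t) t := by
    intro t ht
    have ht' : 0 < t := ht
    have ht0 : t ≠ 0 := ht'.ne'
    have h1 : HasDerivAt (fun t : ℝ => c ^ 2 / t ^ 2) (-2 * c ^ 2 / t ^ 3) t := by
      have h2 : HasDerivAt (fun t : ℝ => t ^ 2) (2 * t) t := by
        simpa using hasDerivAt_pow 2 t
      have h3 : HasDerivAt (fun t : ℝ => c ^ 2 / t ^ 2)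
          ((0 * t ^ 2 - c ^ 2 * (2 * t)) / (t ^ 2) ^ 2) t :=
        (hasDerivAt_const t (c ^ 2)).div h2 (by positivity)
      refine h3.congr_deriv ?_
      field_simp
      ring
    have h4 : HasDerivAt (fun t : ℝ => Φ (c ^ 2 / t ^ 2)) (Φ' (c ^ 2 / t ^ 2) * (-2 * c ^ 2 / t ^ 3)) t :=
      (hΦ _).comp t h1
    rw [← hf t ht'] at h4
    refine h4.congr_of_eventuallyEq ?_
    filter_upwards [Ioi_mem_nhds ht'] with s hs
    have hs' : ¬ s ≤ 0 := not_le.2 hs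
    simp only [hg, hs', if_false]
  have hcont : ContinuousWithinAt g (Ici 0) 0 := by
    have h5 : ContinuousWithinAt g (Ioi 0) 0 := by
      have h6 : Tendsto (fun t : ℝ => c ^ 2 / t ^ 2) (𝓝[>] 0) atTop := by
        have h7 : Tendsto (fun t : ℝ => t⁻¹) (𝓝[>] 0) atTop := tendsto_inv_nhdsGT_zero
        have h8 : Tendsto (fun t : ℝ => c ^ 2 * (t⁻¹) ^ 2) (𝓝[>] 0) atTop :=
          ((tendsto_pow_atTop (two_ne_zero)).comp h7).const_mul_atTop (by positivity)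
        refine h8.congr (fun t => ?_)
        rw [inv_pow, div_eq_mul_inv]
      have h9 : Tendsto (fun t : ℝ => Φ (c ^ 2 / t ^ 2)) (𝓝[>] 0) (𝓝 (g 0)) := by
        have : g 0 = 0 := by simp [hg]
        rw [this]
        exact h0.comp h6
      refine h9.congr' ?_
      filter_upwards [self_mem_nhdsWithin] with s hs
      have hs' : ¬ s ≤ 0 := not_le.2 hs
      simp only [hg, hs', if_false]
    exact continuousWithinAt_Ioi_iff_Ici.1 h5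
  have hlim : Tendsto g atTop (𝓝 (Φ 0)) := by
    have h6 : Tendsto (fun t : ℝ => c ^ 2 / t ^ 2) atTop (𝓝 0) :=
      (tendsto_pow_atTop (two_ne_zero)).const_div_atTop (c ^ 2)
    have h9 : Tendsto (fun t : ℝ => Φ (c ^ 2 / t ^ 2)) atTop (𝓝 (Φ 0)) :=
      ((hΦ 0).continuousAt.tendsto).comp h6
    refine h9.congr' ?_
    filter_upwards [Ioi_mem_atTop 0] with s hs
    have hs' : ¬ s ≤ 0 := not_le.2 hs
    simp only [hg, hs', if_false]
  refine ⟨integrableOn_Ioi_deriv_of_nonneg hcont hd (fun t ht => hn t ht) hlim, ?_⟩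
  rw [integral_Ioi_of_hasDerivAt_of_nonneg hcont hd (fun t ht => hn t ht) hlim]
  simp [hg]

theorem time_int7 {c : ℝ} (hc : 0 < c) :
    IntegrableOn (fun t : ℝ => t⁻¹ ^ 7 * Real.exp (-(c ^ 2 / t ^ 2))) (Ioi 0) ∧
    ∫ t in Ioi (0 : ℝ), t⁻¹ ^ 7 * Real.exp (-(c ^ 2 / t ^ 2)) = 1 / c ^ 6 ∧
    IntegrableOn (fun t : ℝ => t⁻¹ ^ 9 * Real.exp (-(c ^ 2 / t ^ 2))) (Ioi 0) ∧
    ∫ t in Ioi (0 : ℝ), t⁻¹ ^ 9 * Real.exp (-(c ^ 2 / t ^ 2)) = 3 / c ^ 8 := by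
  have hc0 : c ≠ 0 := hc.ne'
  have A := Tim_gen (c := c) hc
    (Φ := fun s => (s ^ 2 + 2 * s + 2) * Real.exp (-s) / (2 * c ^ 6))
    (Φ' := fun s => -(s ^ 2 * Real.exp (-s)) / (2 * c ^ 6))
    (f := fun t => t⁻¹ ^ 7 * Real.exp (-(c ^ 2 / t ^ 2)))
    (fun s => by
      have h1 : HasDerivAt (fun s : ℝ => Real.exp (-s)) (Real.exp (-s) * (-1)) s :=
        (hasDerivAt_neg s).exp
      have h0 : HasDerivAt (fun s : ℝ => s ^ 2 + 2 * s + 2) (2 * s + 2) s := by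
        have e1 : HasDerivAt (fun s : ℝ => s ^ 2) (2 * s) s := by
          simpa using hasDerivAt_pow 2 s
        have e2 : HasDerivAt (fun s : ℝ => 2 * s) 2 s := by
          simpa using (hasDerivAt_id s).const_mul 2
        exact (e1.add e2).add_const 2
      have h2 : HasDerivAt (fun s : ℝ => (s ^ 2 + 2 * s + 2) * Real.exp (-s) / (2 * c ^ 6))
          (((2 * s + 2) * Real.exp (-s) + (s ^ 2 + 2 * s + 2) * (Real.exp (-s) * (-1))) /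
            (2 * c ^ 6)) s :=
        (h0.mul h1).div_const (2 * c ^ 6)
      refine h2.congr_deriv ?_
      ring)
    (by
      have h1 : Tendsto (fun s : ℝ => Real.exp (-s)) atTop (𝓝 0) :=
        Real.tendsto_exp_neg_atTop_nhds_zero
      have h3 : Tendsto (fun s : ℝ => s ^ 1 * Real.exp (-s)) atTop (𝓝 0) :=
        Real.tendsto_pow_mul_exp_neg_atTop_nhds_zero 1
      have h3' : Tendsto (fun s : ℝ => s ^ 2 * Real.exp (-s)) atTop (𝓝 0) :=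
        Real.tendsto_pow_mul_exp_neg_atTop_nhds_zero 2
      have h4 := ((h3'.add (h3.const_mul 2)).add (h1.const_mul 2)).div_const (2 * c ^ 6)
      simp only [add_zero, zero_div, mul_zero] at h4
      refine h4.congr (fun s => ?_)
      simp only [pow_one]
      ring)
    (fun t ht => by
      have ht0 : t ≠ 0 := ht.ne'
      field_simp)
    (fun t ht => by positivity)
  have B := Tim_gen (c := c) hc
    (Φ := fun s => (s ^ 3 + 3 * s ^ 2 + 6 * s + 6) * Real.exp (-s) / (2 * c ^ 8))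
    (Φ' := fun s => -(s ^ 3 * Real.exp (-s)) / (2 * c ^ 8))
    (f := fun t => t⁻¹ ^ 9 * Real.exp (-(c ^ 2 / t ^ 2)))
    (fun s => by
      have h1 : HasDerivAt (fun s : ℝ => Real.exp (-s)) (Real.exp (-s) * (-1)) s :=
        (hasDerivAt_neg s).exp
      have h0 : HasDerivAt (fun s : ℝ => s ^ 3 + 3 * s ^ 2 + 6 * s + 6)
          (3 * s ^ 2 + 3 * (2 * s) + 6) s := by
        have e0 : HasDerivAt (fun s : ℝ => s ^ 3) (3 * s ^ 2) s := by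
          simpa using hasDerivAt_pow 3 s
        have e1 : HasDerivAt (fun s : ℝ => 3 * s ^ 2) (3 * (2 * s)) s := by
          have e3 : HasDerivAt (fun s : ℝ => s ^ 2) (2 * s) s := by
            simpa using hasDerivAt_pow 2 s
          exact e3.const_mul 3
        have e2 : HasDerivAt (fun s : ℝ => 6 * s) 6 s := by
          simpa using (hasDerivAt_id s).const_mul 6
        exact ((e0.add e1).add e2).add_const 6
      have h2 : HasDerivAt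
          (fun s : ℝ => (s ^ 3 + 3 * s ^ 2 + 6 * s + 6) * Real.exp (-s) / (2 * c ^ 8))
          (((3 * s ^ 2 + 3 * (2 * s) + 6) * Real.exp (-s) +
            (s ^ 3 + 3 * s ^ 2 + 6 * s + 6) * (Real.exp (-s) * (-1))) / (2 * c ^ 8)) s :=
        (h0.mul h1).div_const (2 * c ^ 8)
      refine h2.congr_deriv ?_
      ring)
    (by
      have h1 : Tendsto (fun s : ℝ => Real.exp (-s)) atTop (𝓝 0) :=
        Real.tendsto_exp_neg_atTop_nhds_zero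
      have h3 : Tendsto (fun s : ℝ => s ^ 1 * Real.exp (-s)) atTop (𝓝 0) :=
        Real.tendsto_pow_mul_exp_neg_atTop_nhds_zero 1
      have h3' : Tendsto (fun s : ℝ => s ^ 2 * Real.exp (-s)) atTop (𝓝 0) :=
        Real.tendsto_pow_mul_exp_neg_atTop_nhds_zero 2
      have h3'' : Tendsto (fun s : ℝ => s ^ 3 * Real.exp (-s)) atTop (𝓝 0) :=
        Real.tendsto_pow_mul_exp_neg_atTop_nhds_zero 3
      have h4 := (((h3''.add (h3'.const_mul 3)).add (h3.const_mul 6)).add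
        (h1.const_mul 6)).div_const (2 * c ^ 8)
      simp only [add_zero, zero_div, mul_zero] at h4
      refine h4.congr (fun s => ?_)
      simp only [pow_one]
      ring)
    (fun t ht => by
      have ht0 : t ≠ 0 := ht.ne'
      field_simp)
    (fun t ht => by positivity)
  refine ⟨A.1, ?_, B.1, ?_⟩
  · rw [A.2]
    simp only [neg_zero, Real.exp_zero]
    field_simp
    norm_num
  · rw [B.2]
    simp only [neg_zero, Real.exp_zero]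
    field_simp
    norm_num

/-- three nonnegative functions: the linear combination -/
private theorem Tim_lin {g1 g2 g3 f : ℝ → ℝ} {I1 I2 I3 x y z : ℝ}
    (h1 : IntegrableOn g1 (Ioi 0)) (h2 : IntegrableOn g2 (Ioi 0)) (h3 : IntegrableOn g3 (Ioi 0))
    (e1 : ∫ t in Ioi (0 : ℝ), g1 t = I1) (e2 : ∫ t in Ioi (0 : ℝ), g2 t = I2)
    (e3 : ∫ t in Ioi (0 : ℝ), g3 t = I3)
    (n1 : ∀ t : ℝ, 0 < t → 0 ≤ g1 t) (n2 : ∀ t : ℝ, 0 < t → 0 ≤ g2 t)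
    (n3 : ∀ t : ℝ, 0 < t → 0 ≤ g3 t)
    (key : ∀ t : ℝ, 0 < t → f t = x * g1 t + y * g2 t + z * g3 t) :
    IntegrableOn f (Ioi 0) ∧ ∫ t in Ioi (0 : ℝ), f t = x * I1 + y * I2 + z * I3 ∧
    ∫ t in Ioi (0 : ℝ), |f t| ≤ |x| * I1 + |y| * I2 + |z| * I3 := by
  have A : ∀ u v w : ℝ, IntegrableOn (fun t : ℝ => u * g1 t + v * g2 t + w * g3 t) (Ioi 0) :=
    fun u v w => ((h1.const_mul u).add (h2.const_mul v)).add (h3.const_mul w)
  have B : ∀ u v w : ℝ, ∫ t in Ioi (0 : ℝ), (u * g1 t + v * g2 t + w * g3 t) =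
      u * I1 + v * I2 + w * I3 := by
    intro u v w
    have s1 : ∫ t in Ioi (0 : ℝ), (u * g1 t + v * g2 t + w * g3 t) =
        (∫ t in Ioi (0 : ℝ), (u * g1 t + v * g2 t)) + ∫ t in Ioi (0 : ℝ), w * g3 t :=
      integral_add ((h1.const_mul u).add (h2.const_mul v)) (h3.const_mul w)
    have s2 : ∫ t in Ioi (0 : ℝ), (u * g1 t + v * g2 t) =
        (∫ t in Ioi (0 : ℝ), u * g1 t) + ∫ t in Ioi (0 : ℝ), v * g2 t :=
      integral_add (h1.const_mul u) (h2.const_mul v)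
    rw [s1, s2, integral_const_mul, integral_const_mul, integral_const_mul, e1, e2, e3]
  have I : IntegrableOn f (Ioi 0) :=
    (A x y z).congr_fun (fun t ht => (key t ht).symm) measurableSet_Ioi
  refine ⟨I, ?_, ?_⟩
  · rw [setIntegral_congr_fun measurableSet_Ioi (fun t ht => key t ht), B]
  · rw [← B |x| |y| |z|]
    refine setIntegral_mono_on I.abs (A _ _ _) measurableSet_Ioi (fun t ht => ?_)
    have ht' : 0 < t := ht
    rw [key t ht']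
    refine (abs_add_three _ _ _).trans (le_of_eq ?_)
    rw [abs_mul x, abs_mul y, abs_mul z, abs_of_nonneg (n1 t ht'), abs_of_nonneg (n2 t ht'),
      abs_of_nonneg (n3 t ht')]

/-- bounds for the inner products -/
private theorem Tim_bd (a b : X d) :
    |⟪a, b⟫| ≤ ‖a‖ * ‖b‖ ∧
    |⟪a, a - b⟫ * ⟪b, b - a⟫| ≤ (‖a‖ * ‖b‖) * ‖a - b‖ ^ 2 := by
  refine ⟨abs_real_inner_le_norm a b, ?_⟩
  have h1 : |⟪a, a - b⟫| ≤ ‖a‖ * ‖a - b‖ := abs_real_inner_le_norm a (a - b)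
  have h2 : |⟪b, b - a⟫| ≤ ‖b‖ * ‖a - b‖ := by
    have := abs_real_inner_le_norm b (b - a)
    rwa [norm_sub_rev b a] at this
  rw [abs_mul]
  calc |⟪a, a - b⟫| * |⟪b, b - a⟫| ≤ (‖a‖ * ‖a - b‖) * (‖b‖ * ‖a - b‖) := by gcongr
    _ = (‖a‖ * ‖b‖) * ‖a - b‖ ^ 2 := by ring

theorem mta_int1 {a b : X d} (h : a ≠ b) :
    IntegrableOn (fun t : ℝ => mta 1 a b t * t⁻¹ ^ 3) (Ioi 0) ∧
    ∫ t in Ioi (0 : ℝ), mta 1 a b t * t⁻¹ ^ 3 = i1 a b ∧
    ∫ t in Ioi (0 : ℝ), |mta 1 a b t * t⁻¹ ^ 3| ≤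
      2 * ‖a - b‖⁻¹ ^ 2 + 5 * (‖a‖ * ‖b‖) * ‖a - b‖⁻¹ ^ 4 := by
  have hc : 0 < ‖a - b‖ := norm_pos_iff.2 (sub_ne_zero.2 h)
  obtain ⟨j3, e3, j5, e5⟩ := time_int hc
  obtain ⟨j7, e7, -, -⟩ := time_int7 hc
  obtain ⟨hpb, hqb⟩ := Tim_bd a b
  set c := ‖a - b‖ with hcd
  set p : ℝ := ⟪a, b⟫ with hp
  set q : ℝ := ⟪a, a - b⟫ * ⟪b, b - a⟫ with hq
  set M : ℝ := ‖a‖ * ‖b‖ with hM
  have hM0 : 0 ≤ M := by positivity
  have key : ∀ t : ℝ, 0 < t → mta 1 a b t * t⁻¹ ^ 3 =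
      1 * (t⁻¹ ^ 3 * Real.exp (-(c ^ 2 / t ^ 2))) +
      (-2 * c ^ 2 + 2 * p) * (t⁻¹ ^ 5 * Real.exp (-(c ^ 2 / t ^ 2))) +
      (4 * q) * (t⁻¹ ^ 7 * Real.exp (-(c ^ 2 / t ^ 2))) := by
    intro t _
    simp only [mta, ← hcd, ← hp, ← hq]
    simp only [div_eq_mul_inv, inv_pow]
    ring
  obtain ⟨r1, r2, r3⟩ := Tim_lin j3 j5 j7 e3 e5 e7 (fun t ht => by positivity)
    (fun t ht => by positivity) (fun t ht => by positivity) key
  refine ⟨r1, ?_, ?_⟩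
  · rw [r2]
    simp only [i1, ← hcd, ← hp, ← hq]
    field_simp
    ring
  · refine r3.trans ?_
    have k1 : |(1 : ℝ)| = 1 := abs_one
    have k2 : |-2 * c ^ 2 + 2 * p| ≤ 2 * c ^ 2 + 2 * M := by
      refine (abs_add_le _ _).trans ?_
      have u1 : |-2 * c ^ 2| = 2 * c ^ 2 := by
        rw [abs_mul, abs_neg, abs_of_pos (show (0 : ℝ) < 2 by norm_num),
          abs_of_pos (show (0 : ℝ) < c ^ 2 by positivity)]
      have u2 : |2 * p| = 2 * |p| := by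
        rw [abs_mul, abs_of_pos (show (0 : ℝ) < 2 by norm_num)]
      rw [u1, u2]
      linarith
    have k3 : |4 * q| ≤ 4 * (M * c ^ 2) := by
      have u2 : |4 * q| = 4 * |q| := by
        rw [abs_mul, abs_of_pos (show (0 : ℝ) < 4 by norm_num)]
      rw [u2]
      linarith
    calc |(1 : ℝ)| * (1 / (2 * c ^ 2)) + |-2 * c ^ 2 + 2 * p| * (1 / (2 * c ^ 4)) +
          |4 * q| * (1 / c ^ 6)
        ≤ 1 * (1 / (2 * c ^ 2)) + (2 * c ^ 2 + 2 * M) * (1 / (2 * c ^ 4)) +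
          4 * (M * c ^ 2) * (1 / c ^ 6) := by
          rw [k1]
          gcongr
      _ = 3 / 2 * c⁻¹ ^ 2 + 5 * M * c⁻¹ ^ 4 := by
          field_simp
          ring
      _ ≤ 2 * c⁻¹ ^ 2 + 5 * M * c⁻¹ ^ 4 := by
          have : 0 ≤ c⁻¹ ^ 2 := by positivity
          linarith

theorem mta_int2 {a b : X d} (h : a ≠ b) :
    IntegrableOn (fun t : ℝ => mta 2 a b t * t⁻¹ ^ 5) (Ioi 0) ∧
    ∫ t in Ioi (0 : ℝ), mta 2 a b t * t⁻¹ ^ 5 = i2 a b ∧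
    ∫ t in Ioi (0 : ℝ), |mta 2 a b t * t⁻¹ ^ 5| ≤
      6 * ‖a - b‖⁻¹ ^ 4 + 14 * (‖a‖ * ‖b‖) * ‖a - b‖⁻¹ ^ 6 := by
  have hc : 0 < ‖a - b‖ := norm_pos_iff.2 (sub_ne_zero.2 h)
  obtain ⟨-, -, j5, e5⟩ := time_int hc
  obtain ⟨j7, e7, j9, e9⟩ := time_int7 hc
  obtain ⟨hpb, hqb⟩ := Tim_bd a b
  set c := ‖a - b‖ with hcd
  set p : ℝ := ⟪a, b⟫ with hp
  set q : ℝ := ⟪a, a - b⟫ * ⟪b, b - a⟫ with hq
  set M : ℝ := ‖a‖ * ‖b‖ with hM
  have hM0 : 0 ≤ M := by positivity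
  have key : ∀ t : ℝ, 0 < t → mta 2 a b t * t⁻¹ ^ 5 =
      4 * (t⁻¹ ^ 5 * Real.exp (-(c ^ 2 / t ^ 2))) +
      (-4 * c ^ 2 + 2 * p) * (t⁻¹ ^ 7 * Real.exp (-(c ^ 2 / t ^ 2))) +
      (4 * q) * (t⁻¹ ^ 9 * Real.exp (-(c ^ 2 / t ^ 2))) := by
    intro t _
    simp only [mta, ← hcd, ← hp, ← hq]
    simp only [div_eq_mul_inv, inv_pow]
    ring
  obtain ⟨r1, r2, r3⟩ := Tim_lin j5 j7 j9 e5 e7 e9 (fun t ht => by positivity)
    (fun t ht => by positivity) (fun t ht => by positivity) key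
  refine ⟨r1, ?_, ?_⟩
  · rw [r2]
    simp only [i2, ← hcd, ← hp, ← hq]
    field_simp
    ring
  · refine r3.trans ?_
    have k1 : |(4 : ℝ)| = 4 := abs_of_pos (by norm_num)
    have k2 : |-4 * c ^ 2 + 2 * p| ≤ 4 * c ^ 2 + 2 * M := by
      refine (abs_add_le _ _).trans ?_
      have u1 : |-4 * c ^ 2| = 4 * c ^ 2 := by
        rw [abs_mul, abs_neg, abs_of_pos (show (0 : ℝ) < 4 by norm_num),
          abs_of_pos (show (0 : ℝ) < c ^ 2 by positivity)]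
      have u2 : |2 * p| = 2 * |p| := by
        rw [abs_mul, abs_of_pos (show (0 : ℝ) < 2 by norm_num)]
      rw [u1, u2]
      linarith
    have k3 : |4 * q| ≤ 4 * (M * c ^ 2) := by
      have u2 : |4 * q| = 4 * |q| := by
        rw [abs_mul, abs_of_pos (show (0 : ℝ) < 4 by norm_num)]
      rw [u2]
      linarith
    calc |(4 : ℝ)| * (1 / (2 * c ^ 4)) + |-4 * c ^ 2 + 2 * p| * (1 / c ^ 6) +
          |4 * q| * (3 / c ^ 8)
        ≤ 4 * (1 / (2 * c ^ 4)) + (4 * c ^ 2 + 2 * M) * (1 / c ^ 6) +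
          4 * (M * c ^ 2) * (3 / c ^ 8) := by
          rw [k1]
          gcongr
      _ = 6 * c⁻¹ ^ 4 + 14 * M * c⁻¹ ^ 6 := by
          field_simp
          ring

end Pool.Agent.H48.R7
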