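import Pool.Agent.H48.R7.Pair

/-!
double7: the square of a weighted integral as a double integral.  Template:
Pool/Agent/H1/LD/En1B.lean (En1B_core and the lemmas before it).  β = 2/t².  Put
g(v) = (1 + 2β‖v‖) ga β v: g is bounded by some C and integrable (poly_ga, ga_integrable), and
|ek α β z x Y| ≤ (|α| + ‖x-z‖) g(x-Y).  With H(x) = |ω x|(|α| + ‖x-z‖) (integrable by h1, h2):
|ω x ek ω x' ek'| ≤ H(x) H(x') C g(x-Y), integrable on (ν×ν)×volume.  Fubini with gauss_pair7: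
∫ Y (∫ x)² = ∫∫ ω ω' ∫ Y ek ek' = t^d gc d 4 ∫∫ ω ω' mta.
-/

set_option autoImplicit false

open MeasureTheory Filter Topology Metric Set
open scoped RealInnerProductSpace ENNReal

namespace Pool.Agent.H48.R7

open Pool.Agent.RZ Pool.Agent.H1.LD

variable {d : ℕ}

/-- the majorant in the variable `Y` -/
private noncomputable def Dbl_g (β : ℝ) (v : X d) : ℝ := (1 + 2 * β * ‖v‖) * ga β v

private theorem Dbl_g_nonneg {β : ℝ} (hβ : 0 < β) (v : X d) : 0 ≤ Dbl_g β v := by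
  unfold Dbl_g
  have := ga_nonneg β v
  positivity

private theorem Dbl_g_bound (d : ℕ) {β : ℝ} (hβ : 0 < β) : ∃ C : ℝ, ∀ v : X d, Dbl_g β v ≤ C := by
  obtain ⟨C, hC, hCb⟩ := poly_ga d 1 hβ
  refine ⟨(1 + 2 * β) * C, fun v => ?_⟩
  have h1 := hCb v
  have h2 : ga 0 v = 1 := by unfold ga; simp
  rw [h2, pow_one, mul_one] at h1
  have h3 := ga_nonneg β v
  have h4 : (1 + 2 * β * ‖v‖) ≤ (1 + 2 * β) * (1 + ‖v‖) := by
    have h5 := norm_nonneg v
    nlinarith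
  unfold Dbl_g
  calc (1 + 2 * β * ‖v‖) * ga β v ≤ ((1 + 2 * β) * (1 + ‖v‖)) * ga β v :=
        mul_le_mul_of_nonneg_right h4 h3
    _ = (1 + 2 * β) * ((1 + ‖v‖) * ga β v) := by ring
    _ ≤ (1 + 2 * β) * C := mul_le_mul_of_nonneg_left h1 (by positivity)

private theorem Dbl_g_integrable {β : ℝ} (hβ : 0 < β) : Integrable (Dbl_g β : X d → ℝ) := by
  have h1 := (ga_integrable (d := d) hβ 1).const_mul (1 + 2 * β)
  have hms : AEStronglyMeasurable (Dbl_g β : X d → ℝ) volume := by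
    unfold Dbl_g
    exact ((continuous_const.add (continuous_const.mul continuous_norm)).mul
      (ga_continuous β)).aestronglyMeasurable
  refine h1.mono' hms (Filter.Eventually.of_forall fun w => ?_)
  rw [Real.norm_of_nonneg (Dbl_g_nonneg hβ w), pow_one]
  have h3 := ga_nonneg β w
  have h4 : (1 + 2 * β * ‖w‖) ≤ (1 + 2 * β) * (1 + ‖w‖) := by
    have h5 := norm_nonneg w
    nlinarith
  unfold Dbl_g
  calc (1 + 2 * β * ‖w‖) * ga β w ≤ ((1 + 2 * β) * (1 + ‖w‖)) * ga β w :=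
        mul_le_mul_of_nonneg_right h4 h3
    _ = (1 + 2 * β) * ((1 + ‖w‖) * ga β w) := by ring

private theorem Dbl_ek (α : ℝ) {β : ℝ} (hβ : 0 < β) (z x Y : X d) :
    |ek α β z x Y| ≤ (|α| + ‖x - z‖) * Dbl_g β (x - Y) := by
  unfold ek Dbl_g
  have h0 := ga_nonneg β (x - Y)
  have h1 : |⟪x - z, x - Y⟫| ≤ ‖x - z‖ * ‖x - Y‖ := abs_real_inner_le_norm _ _
  rw [abs_mul, abs_of_nonneg h0]
  have h2 : |α - 2 * β * ⟪x - z, x - Y⟫| ≤ (|α| + ‖x - z‖) * (1 + 2 * β * ‖x - Y‖) := by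
    calc |α - 2 * β * ⟪x - z, x - Y⟫| ≤ |α| + |2 * β * ⟪x - z, x - Y⟫| := abs_sub _ _
      _ = |α| + 2 * β * |⟪x - z, x - Y⟫| := by
          rw [abs_mul, abs_of_nonneg (by positivity : (0:ℝ) ≤ 2 * β)]
      _ ≤ |α| + 2 * β * (‖x - z‖ * ‖x - Y‖) := by gcongr
      _ ≤ (|α| + ‖x - z‖) * (1 + 2 * β * ‖x - Y‖) := by
          have h3 : 0 ≤ ‖x - z‖ := norm_nonneg _
          have h4 : 0 ≤ |α| * (2 * β * ‖x - Y‖) := by positivity
          nlinarith
  calc |α - 2 * β * ⟪x - z, x - Y⟫| * ga β (x - Y)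
      ≤ ((|α| + ‖x - z‖) * (1 + 2 * β * ‖x - Y‖)) * ga β (x - Y) :=
        mul_le_mul_of_nonneg_right h2 h0
    _ = _ := by ring

/-- the weight -/
private noncomputable def Dbl_H (α : ℝ) (ω : X d → ℝ) (z x : X d) : ℝ := |ω x| * (|α| + ‖x - z‖)

private theorem Dbl_H_nonneg (α : ℝ) (ω : X d → ℝ) (z x : X d) : 0 ≤ Dbl_H α ω z x := by
  unfold Dbl_H; positivity

private theorem Dbl_H_int {ν : Measure (X d)} (α : ℝ) (ω : X d → ℝ)
    (z : X d) (h1 : Integrable ω ν) (h2 : Integrable (fun x => ω x * ‖x - z‖) ν) :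
    Integrable (Dbl_H α ω z) ν := by
  have h3 := (h1.norm.mul_const |α|).add h2.norm
  refine h3.congr (Filter.Eventually.of_forall fun x => ?_)
  simp only [Pi.add_apply, Dbl_H, norm_mul, Real.norm_eq_abs, abs_norm]
  ring

/-- the triple integrand -/
private noncomputable def Dbl_G (α β : ℝ) (ω : X d → ℝ) (z : X d) (q : (X d × X d) × X d) : ℝ :=
  (ω q.1.1 * ek α β z q.1.1 q.2) * (ω q.1.2 * ek α β z q.1.2 q.2)

private theorem Dbl_G_meas (α β : ℝ) (ω : X d → ℝ) (hω : Measurable ω) (z : X d) :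
    Measurable (Dbl_G α β ω z) := by
  unfold Dbl_G ek ga
  fun_prop

private theorem Dbl_G_meas1 (α β : ℝ) (ω : X d → ℝ) (hω : Measurable ω) (z : X d) (p : X d × X d) :
    Measurable (fun Y : X d => Dbl_G α β ω z (p, Y)) :=
  (Dbl_G_meas α β ω hω z).comp measurable_prodMk_left

private theorem Dbl_F (α : ℝ) {β C : ℝ} (hβ : 0 < β) (hgb : ∀ v : X d, Dbl_g β v ≤ C)
    (ω : X d → ℝ) (hω : Measurable ω) (z : X d) {ν : Measure (X d)}
    (hH : Integrable (Dbl_H α ω z) ν) (Y : X d) :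
    Integrable (fun x => ω x * ek α β z x Y) ν := by
  have hms : AEStronglyMeasurable (fun x => ω x * ek α β z x Y) ν := by
    have : Measurable (fun x => ω x * ek α β z x Y) := by
      unfold ek ga
      fun_prop
    exact this.aestronglyMeasurable
  refine (hH.mul_const C).mono' hms (Filter.Eventually.of_forall fun x => ?_)
  rw [Real.norm_eq_abs, abs_mul]
  calc |ω x| * |ek α β z x Y| ≤ |ω x| * ((|α| + ‖x - z‖) * Dbl_g β (x - Y)) :=
        mul_le_mul_of_nonneg_left (Dbl_ek α hβ z x Y) (abs_nonneg _)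
    _ ≤ |ω x| * ((|α| + ‖x - z‖) * C) := by
        refine mul_le_mul_of_nonneg_left (mul_le_mul_of_nonneg_left (hgb _) ?_) (abs_nonneg _)
        positivity
    _ = Dbl_H α ω z x * C := by unfold Dbl_H; ring

private theorem Dbl_G_bound (α : ℝ) {β C : ℝ} (hβ : 0 < β) (hgb : ∀ v : X d, Dbl_g β v ≤ C)
    (ω : X d → ℝ) (z x x' Y : X d) : |Dbl_G α β ω z ((x, x'), Y)| ≤
      (Dbl_H α ω z x * Dbl_H α ω z x' * C) * Dbl_g β (x - Y) := by
  have h1 := Dbl_ek α hβ z x Y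
  have h2 := Dbl_ek α hβ z x' Y
  have h5 := Dbl_g_nonneg hβ (x - Y)
  have h6 := Dbl_g_nonneg hβ (x' - Y)
  have h7 := hgb (x' - Y)
  have e1 : |ω x| * |ek α β z x Y| ≤ Dbl_H α ω z x * Dbl_g β (x - Y) := by
    calc |ω x| * |ek α β z x Y| ≤ |ω x| * ((|α| + ‖x - z‖) * Dbl_g β (x - Y)) :=
          mul_le_mul_of_nonneg_left h1 (abs_nonneg _)
      _ = _ := by unfold Dbl_H; ring
  have e2 : |ω x'| * |ek α β z x' Y| ≤ Dbl_H α ω z x' * C := by
    calc |ω x'| * |ek α β z x' Y| ≤ |ω x'| * ((|α| + ‖x' - z‖) * Dbl_g β (x' - Y)) :=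
          mul_le_mul_of_nonneg_left h2 (abs_nonneg _)
      _ = Dbl_H α ω z x' * Dbl_g β (x' - Y) := by unfold Dbl_H; ring
      _ ≤ _ := mul_le_mul_of_nonneg_left h7 (Dbl_H_nonneg α ω z x')
  calc |Dbl_G α β ω z ((x, x'), Y)| = (|ω x| * |ek α β z x Y|) * (|ω x'| * |ek α β z x' Y|) := by
        unfold Dbl_G; rw [abs_mul, abs_mul, abs_mul]
    _ ≤ (Dbl_H α ω z x * Dbl_g β (x - Y)) * (Dbl_H α ω z x' * C) := by
        refine mul_le_mul e1 e2 (by positivity) ?_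
        exact mul_nonneg (Dbl_H_nonneg α ω z x) h5
    _ = _ := by ring

private theorem Dbl_G_slice (α : ℝ) {β C : ℝ} (hβ : 0 < β) (hgb : ∀ v : X d, Dbl_g β v ≤ C)
    (ω : X d → ℝ) (hω : Measurable ω) (z : X d) (p : X d × X d) :
    Integrable (fun Y => Dbl_G α β ω z (p, Y)) := by
  have h1 : Integrable (fun Y : X d => Dbl_g β (p.1 - Y)) := (Dbl_g_integrable hβ).comp_sub_left p.1
  have h2 := h1.const_mul (Dbl_H α ω z p.1 * Dbl_H α ω z p.2 * C)
  refine h2.mono' (Dbl_G_meas1 α β ω hω z p).aestronglyMeasurable (Filter.Eventually.of_forall fun Y => ?_)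
  rw [Real.norm_eq_abs]
  exact Dbl_G_bound α hβ hgb ω z p.1 p.2 Y

private theorem Dbl_G_int {ν : Measure (X d)} [IsFiniteMeasure ν] (α : ℝ) {β C : ℝ} (hβ : 0 < β)
    (hgb : ∀ v : X d, Dbl_g β v ≤ C) (ω : X d → ℝ) (hω : Measurable ω) (z : X d)
    (hH : Integrable (Dbl_H α ω z) ν) :
    Integrable (Dbl_G α β ω z) ((ν.prod ν).prod volume) := by
  have hGm := Dbl_G_meas α β ω hω z
  rw [integrable_prod_iff hGm.aestronglyMeasurable]
  refine ⟨Filter.Eventually.of_forall (Dbl_G_slice α hβ hgb ω hω z), ?_⟩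
  have hmul : Integrable (fun p : X d × X d => Dbl_H α ω z p.1 * Dbl_H α ω z p.2) (ν.prod ν) :=
    hH.mul_prod hH
  have hmul2 := hmul.mul_const (C * ∫ w : X d, Dbl_g β w)
  have hms : AEStronglyMeasurable (fun p : X d × X d => ∫ Y, ‖Dbl_G α β ω z (p, Y)‖) (ν.prod ν) :=
    hGm.norm.aestronglyMeasurable.integral_prod_right'
  refine hmul2.mono' hms (Filter.Eventually.of_forall fun p => ?_)
  have h0 : 0 ≤ ∫ Y, ‖Dbl_G α β ω z (p, Y)‖ := integral_nonneg fun Y => norm_nonneg _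
  rw [Real.norm_of_nonneg h0]
  have h1 : Integrable (fun Y : X d => Dbl_g β (p.1 - Y)) := (Dbl_g_integrable hβ).comp_sub_left p.1
  have h2 := h1.const_mul (Dbl_H α ω z p.1 * Dbl_H α ω z p.2 * C)
  have h3 : ∫ Y : X d, Dbl_g β (p.1 - Y) = ∫ w : X d, Dbl_g β w :=
    integral_sub_left_eq_self (fun w : X d => Dbl_g β w) volume p.1
  calc ∫ Y, ‖Dbl_G α β ω z (p, Y)‖
      ≤ ∫ Y, (Dbl_H α ω z p.1 * Dbl_H α ω z p.2 * C) * Dbl_g β (p.1 - Y) := by
        refine integral_mono (Dbl_G_slice α hβ hgb ω hω z p).norm h2 fun Y => ?_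
        simp only [Real.norm_eq_abs]
        exact Dbl_G_bound α hβ hgb ω z p.1 p.2 Y
    _ = (Dbl_H α ω z p.1 * Dbl_H α ω z p.2 * C) * ∫ w : X d, Dbl_g β w := by
        rw [integral_const_mul, h3]
    _ = _ := by ring

theorem double7 {ν : Measure (X d)} [IsFiniteMeasure ν] (α : ℝ) (ω : X d → ℝ) (hω : Measurable ω)
    (z : X d) (h1 : Integrable ω ν) (h2 : Integrable (fun x => ω x * ‖x - z‖) ν) {t : ℝ}
    (ht : 0 < t) :
    Integrable (fun p : X d × X d => ω p.1 * ω p.2 * mta α (p.1 - z) (p.2 - z) t) (ν.prod ν) ∧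
    Integrable (fun Y : X d => (∫ x, ω x * ek α (2 / t ^ 2) z x Y ∂ν) ^ 2) ∧
    ∫ Y : X d, (∫ x, ω x * ek α (2 / t ^ 2) z x Y ∂ν) ^ 2 = t ^ d * gc d 4 *
      ∫ p : X d × X d, ω p.1 * ω p.2 * mta α (p.1 - z) (p.2 - z) t ∂(ν.prod ν) := by
  have hβ : (0:ℝ) < 2 / t ^ 2 := by positivity
  obtain ⟨C, hgb⟩ := Dbl_g_bound d hβ
  have hH := Dbl_H_int α ω z h1 h2
  have hGi := Dbl_G_int (ν := ν) α hβ hgb ω hω z hH
  have hY : ∀ Y : X d, (∫ x, ω x * ek α (2 / t ^ 2) z x Y ∂ν) ^ 2 =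
      ∫ p, Dbl_G α (2 / t ^ 2) ω z (p, Y) ∂(ν.prod ν) := by
    intro Y
    rw [sq]
    exact (integral_prod_mul (fun x => ω x * ek α (2 / t ^ 2) z x Y)
      (fun x => ω x * ek α (2 / t ^ 2) z x Y)).symm
  have hP : ∀ p : X d × X d, ∫ Y, Dbl_G α (2 / t ^ 2) ω z (p, Y) = t ^ d * gc d 4 *
      (ω p.1 * ω p.2 * mta α (p.1 - z) (p.2 - z) t) := by
    intro p
    have hg := gauss_pair7 ht α z p.1 p.2
    have h3 : ∀ Y : X d, Dbl_G α (2 / t ^ 2) ω z (p, Y) = (ω p.1 * ω p.2) *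
        (ek α (2 / t ^ 2) z p.1 Y * ek α (2 / t ^ 2) z p.2 Y) := by
      intro Y
      unfold Dbl_G
      ring
    rw [integral_congr_ae (Filter.Eventually.of_forall h3), integral_const_mul, hg]
    ring
  have hconst : 0 < t ^ d * gc d 4 := mul_pos (pow_pos ht d) (gc_pos (by norm_num))
  refine ⟨?_, ?_, ?_⟩
  · have h4 := hGi.integral_prod_left
    have h5 := h4.const_mul (t ^ d * gc d 4)⁻¹
    refine h5.congr (Filter.Eventually.of_forall fun p => ?_)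
    simp only
    rw [hP p, ← mul_assoc, inv_mul_cancel₀ hconst.ne', one_mul]
  · have h4 := hGi.integral_prod_right
    exact h4.congr (Filter.Eventually.of_forall fun Y => (hY Y).symm)
  · have h4 : ∫ Y : X d, (∫ x, ω x * ek α (2 / t ^ 2) z x Y ∂ν) ^ 2 =
        ∫ Y : X d, ∫ p, Dbl_G α (2 / t ^ 2) ω z (p, Y) ∂(ν.prod ν) :=
      integral_congr_ae (Filter.Eventually.of_forall hY)
    have h5 : ∫ p, (∫ Y, Dbl_G α (2 / t ^ 2) ω z (p, Y)) ∂(ν.prod ν) =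
        ∫ Y : X d, ∫ p, Dbl_G α (2 / t ^ 2) ω z (p, Y) ∂(ν.prod ν) :=
      integral_integral_swap (f := fun p Y => Dbl_G α (2 / t ^ 2) ω z (p, Y)) hGi
    rw [h4, ← h5, integral_congr_ae (Filter.Eventually.of_forall hP), integral_const_mul]

end Pool.Agent.H48.R7
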