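import Pool.Agent.H48.R7.Dbl

/-!
nice_int: r⁻ᵏ ≤ 1 + r⁻⁷ for k ≤ 7 (template: En1B_inv_sq in Pool/Agent/H1/LD/En1B.lean).
Q7_double: double7 with α = 1, ω x = ‖x-z‖⁻¹^6, ω x ‖x-z‖ = ‖x-z‖⁻¹^5 (a.e.; bounded by it); then as
Qz_double in En1B: Q7 ν z t * ofReal t⁻¹ = ofReal (t⁻¹^2 * t⁻¹ * ∬ ω ω' mta 1), f1 = ω ω' (mta 1 t⁻³).
f2_double: ⟪a,b⟫³ = ∑_{i,j,k} a_i a_j a_k b_i b_j b_k (a_i = ⟪e_i,a⟫ for the standard basis), so the
double integral of f2 is t⁻⁵ ∑_{i,j,k} ∬ ω_ijk ω_ijk' mta 2 with ω_ijk(x) = ‖x-z‖⁻¹^8 a_i a_j a_k,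
a = x-z, |ω_ijk| ≤ ‖x-z‖⁻¹^5, |ω_ijk| ‖x-z‖ ≤ ‖x-z‖⁻¹^4: each term is ≥ 0 by double7 with α = 2 (the
left side of its third statement is ≥ 0 and t^d gc d 4 > 0).
-/

set_option autoImplicit false

open MeasureTheory Filter Topology Metric Set
open scoped RealInnerProductSpace ENNReal

namespace Pool.Agent.H48.R7

open Pool.Agent.RZ Pool.Agent.H1.LD

variable {d : ℕ}

theorem nice_int {ν : Measure (X d)} (h : Nice7 ν) (z : X d) {k : ℕ} (hk : k ≤ 7) :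
    Integrable (fun x : X d => ‖x - z‖⁻¹ ^ k) ν := by
  obtain ⟨hf, C, hC⟩ := h
  have hm : Measurable (fun x : X d => ‖x - z‖⁻¹ ^ k) :=
    ((measurable_id.sub_const z).norm.inv).pow_const k
  refine ⟨hm.aestronglyMeasurable, ?_⟩
  rw [hasFiniteIntegral_iff_enorm]
  have hle : ∀ x : X d, ‖(‖x - z‖⁻¹ ^ k : ℝ)‖ₑ ≤ 1 + ‖x - z‖ₑ⁻¹ ^ 7 := by
    intro x
    by_cases hx : x - z = 0
    · rw [hx]; simp
    · have hpos : 0 < ‖x - z‖ := norm_pos_iff.2 hx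
      have h1 : ‖(‖x - z‖⁻¹ ^ k : ℝ)‖ₑ = ‖x - z‖ₑ⁻¹ ^ k := by
        rw [enorm_pow, enorm_inv hpos.ne', enorm_norm]
      rw [h1]
      set e : ℝ≥0∞ := ‖x - z‖ₑ⁻¹ with he
      rcases le_total e 1 with h2 | h2
      · calc e ^ k ≤ 1 := pow_le_one₀ zero_le h2
          _ ≤ 1 + e ^ 7 := le_self_add
      · calc e ^ k ≤ e ^ 7 := pow_le_pow_right₀ h2 hk
          _ ≤ 1 + e ^ 7 := le_add_self
  calc ∫⁻ x, ‖(‖x - z‖⁻¹ ^ k : ℝ)‖ₑ ∂ν ≤ ∫⁻ x, (1 + ‖x - z‖ₑ⁻¹ ^ 7) ∂ν := lintegral_mono hle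
    _ = ν univ + ∫⁻ x, ‖x - z‖ₑ⁻¹ ^ 7 ∂ν := by
        rw [lintegral_add_left measurable_const]; simp
    _ ≤ ν univ + ENNReal.ofReal C := by gcongr; exact hC z
    _ < ⊤ := ENNReal.add_lt_top.2 ⟨measure_lt_top ν univ, ENNReal.ofReal_lt_top⟩

private theorem Dbq_meas (z : X d) (k : ℕ) : Measurable (fun x : X d => ‖x - z‖⁻¹ ^ k) :=
  ((measurable_id.sub_const z).norm.inv).pow_const k

theorem Q7_double {ν : Measure (X d)} (h : Nice7 ν) (z : X d) {t : ℝ} (ht : 0 < t) :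
    Integrable (fun p : X d × X d => f1 z p t) (ν.prod ν) ∧
    0 ≤ ∫ p, f1 z p t ∂(ν.prod ν) ∧
    Q7 ν z t * ENNReal.ofReal t⁻¹ = ENNReal.ofReal (∫ p, f1 z p t ∂(ν.prod ν)) := by
  have hfin : IsFiniteMeasure ν := h.1
  have i1 : Integrable (fun x : X d => ‖x - z‖⁻¹ ^ 6) ν := nice_int h z (by norm_num)
  have i2 : Integrable (fun x : X d => ‖x - z‖⁻¹ ^ 6 * ‖x - z‖) ν := by
    refine (nice_int h z (k := 5) (by norm_num)).congr (Filter.Eventually.of_forall fun x => ?_)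
    simp only
    by_cases hx : ‖x - z‖ = 0
    · rw [hx]; norm_num
    · field_simp
  obtain ⟨h1, h2, h3⟩ := double7 (ν := ν) 1 (fun x => ‖x - z‖⁻¹ ^ 6) (Dbq_meas z 6) z i1 i2 ht
  have hconst : 0 < t ^ d * gc d 4 := mul_pos (pow_pos ht d) (gc_pos (by norm_num))
  have ht3 : 0 ≤ t⁻¹ ^ 3 := by positivity
  set J : ℝ := ∫ p : X d × X d, ‖p.1 - z‖⁻¹ ^ 6 * ‖p.2 - z‖⁻¹ ^ 6 * mta 1 (p.1 - z) (p.2 - z) t ∂(ν.prod ν)
    with hJ
  have hf : ∀ p : X d × X d, f1 z p t =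
      t⁻¹ ^ 3 * (‖p.1 - z‖⁻¹ ^ 6 * ‖p.2 - z‖⁻¹ ^ 6 * mta 1 (p.1 - z) (p.2 - z) t) := by
    intro p; unfold f1; ring
  have hJf : ∫ p, f1 z p t ∂(ν.prod ν) = t⁻¹ ^ 3 * J := by
    rw [integral_congr_ae (Filter.Eventually.of_forall hf), integral_const_mul]
  have h0 : 0 ≤ ∫ Y : X d, (∫ x, ‖x - z‖⁻¹ ^ 6 * ek 1 (2 / t ^ 2) z x Y ∂ν) ^ 2 :=
    integral_nonneg fun Y => by positivity
  have hJ0 : 0 ≤ J := by
    rw [h3] at h0
    exact nonneg_of_mul_nonneg_right h0 hconst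
  refine ⟨?_, ?_, ?_⟩
  · exact (h1.const_mul (t⁻¹ ^ 3)).congr (Filter.Eventually.of_forall fun p => (hf p).symm)
  · rw [hJf]; exact mul_nonneg ht3 hJ0
  · rw [hJf]
    unfold Q7
    have h4 : ∫⁻ Y, ‖K7 ν z (2 / t ^ 2) Y‖ₑ ^ 2 =
        ENNReal.ofReal (∫ Y : X d, (∫ x, ‖x - z‖⁻¹ ^ 6 * ek 1 (2 / t ^ 2) z x Y ∂ν) ^ 2) := by
      rw [ofReal_integral_eq_lintegral_ofReal h2 (Filter.Eventually.of_forall fun Y => by positivity)]
      refine lintegral_congr fun Y => ?_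
      change ‖K7 ν z (2 / t ^ 2) Y‖ₑ ^ 2 = ENNReal.ofReal (K7 ν z (2 / t ^ 2) Y ^ 2)
      generalize K7 ν z (2 / t ^ 2) Y = r
      rw [← sq_abs r, ENNReal.ofReal_pow (abs_nonneg _), ← Real.norm_eq_abs, ofReal_norm]
    rw [h4, h3, ← ENNReal.ofReal_mul (by positivity), ← ENNReal.ofReal_mul (by positivity)]
    congr 1
    have hc := hconst.ne'
    calc (t ^ d * gc d 4)⁻¹ * t⁻¹ ^ 2 * (t ^ d * gc d 4 * J) * t⁻¹
        = ((t ^ d * gc d 4)⁻¹ * (t ^ d * gc d 4)) * (t⁻¹ ^ 3 * J) := by ring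
      _ = t⁻¹ ^ 3 * J := by rw [inv_mul_cancel₀ hc, one_mul]

/-- the components of the cubic weight -/
private noncomputable def Dbq_w (z : X d) (s : Fin d × Fin d × Fin d) (x : X d) : ℝ :=
  ‖x - z‖⁻¹ ^ 8 * ((x - z) s.1 * (x - z) s.2.1 * (x - z) s.2.2)

private theorem Dbq_w_meas (z : X d) (s : Fin d × Fin d × Fin d) : Measurable (Dbq_w z s) := by
  unfold Dbq_w
  fun_prop

private theorem Dbq_w_abs (z : X d) (s : Fin d × Fin d × Fin d) (x : X d) :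
    |Dbq_w z s x| ≤ ‖x - z‖⁻¹ ^ 5 := by
  unfold Dbq_w
  have h1 : |(x - z) s.1| ≤ ‖x - z‖ := PiLp.norm_apply_le (x - z) s.1
  have h2 : |(x - z) s.2.1| ≤ ‖x - z‖ := PiLp.norm_apply_le (x - z) s.2.1
  have h3 : |(x - z) s.2.2| ≤ ‖x - z‖ := PiLp.norm_apply_le (x - z) s.2.2
  rw [abs_mul, abs_of_nonneg (by positivity : (0:ℝ) ≤ ‖x - z‖⁻¹ ^ 8), abs_mul, abs_mul]
  have h4 : |(x - z) s.1| * |(x - z) s.2.1| * |(x - z) s.2.2| ≤ ‖x - z‖ * ‖x - z‖ * ‖x - z‖ := by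
    gcongr
  calc ‖x - z‖⁻¹ ^ 8 * (|(x - z) s.1| * |(x - z) s.2.1| * |(x - z) s.2.2|)
      ≤ ‖x - z‖⁻¹ ^ 8 * (‖x - z‖ * ‖x - z‖ * ‖x - z‖) := mul_le_mul_of_nonneg_left h4 (by positivity)
    _ = ‖x - z‖⁻¹ ^ 5 := by
        by_cases hx : ‖x - z‖ = 0
        · rw [hx]; norm_num
        · field_simp

private theorem Dbq_w_int {ν : Measure (X d)} (h : Nice7 ν) (z : X d) (s : Fin d × Fin d × Fin d) :
    Integrable (Dbq_w z s) ν := by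
  refine (nice_int h z (k := 5) (by norm_num)).mono' (Dbq_w_meas z s).aestronglyMeasurable
    (Filter.Eventually.of_forall fun x => ?_)
  rw [Real.norm_eq_abs]
  exact Dbq_w_abs z s x

private theorem Dbq_w_int2 {ν : Measure (X d)} (h : Nice7 ν) (z : X d) (s : Fin d × Fin d × Fin d) :
    Integrable (fun x => Dbq_w z s x * ‖x - z‖) ν := by
  have hm : Measurable (fun x => Dbq_w z s x * ‖x - z‖) :=
    (Dbq_w_meas z s).mul (measurable_id.sub_const z).norm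
  refine (nice_int h z (k := 4) (by norm_num)).mono' hm.aestronglyMeasurable
    (Filter.Eventually.of_forall fun x => ?_)
  rw [Real.norm_eq_abs, abs_mul, abs_norm]
  calc |Dbq_w z s x| * ‖x - z‖ ≤ ‖x - z‖⁻¹ ^ 5 * ‖x - z‖ :=
        mul_le_mul_of_nonneg_right (Dbq_w_abs z s x) (norm_nonneg _)
    _ = ‖x - z‖⁻¹ ^ 4 := by
        by_cases hx : ‖x - z‖ = 0
        · rw [hx]; norm_num
        · field_simp

private theorem Dbq_cube (a b : X d) : ⟪a, b⟫ ^ 3 =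
    ∑ s : Fin d × Fin d × Fin d, (a s.1 * a s.2.1 * a s.2.2) * (b s.1 * b s.2.1 * b s.2.2) := by
  have h1 : (⟪a, b⟫ : ℝ) = ∑ i, a i * b i := by
    rw [PiLp.inner_apply]
    refine Finset.sum_congr rfl fun i _ => ?_
    simp [mul_comm]
  rw [h1, pow_succ, sq, Fintype.sum_prod_type]
  simp only [Fintype.sum_prod_type]
  rw [Finset.sum_mul_sum, Finset.sum_mul]
  refine Finset.sum_congr rfl fun i _ => ?_
  rw [Finset.sum_mul_sum]
  refine Finset.sum_congr rfl fun j _ => Finset.sum_congr rfl fun k _ => ?_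
  ring

private theorem Dbq_f2 (z : X d) (p : X d × X d) (t : ℝ) : f2 z p t =
    ∑ s : Fin d × Fin d × Fin d,
      t⁻¹ ^ 5 * (Dbq_w z s p.1 * Dbq_w z s p.2 * mta 2 (p.1 - z) (p.2 - z) t) := by
  unfold f2
  rw [Dbq_cube, Finset.mul_sum, Finset.sum_mul]
  refine Finset.sum_congr rfl fun s _ => ?_
  unfold Dbq_w
  ring

theorem f2_double {ν : Measure (X d)} (h : Nice7 ν) (z : X d) {t : ℝ} (ht : 0 < t) :
    Integrable (fun p : X d × X d => f2 z p t) (ν.prod ν) ∧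
    0 ≤ ∫ p, f2 z p t ∂(ν.prod ν) := by
  have hfin : IsFiniteMeasure ν := h.1
  have hconst : 0 < t ^ d * gc d 4 := mul_pos (pow_pos ht d) (gc_pos (by norm_num))
  have ht5 : 0 ≤ t⁻¹ ^ 5 := by positivity
  have key := fun s : Fin d × Fin d × Fin d =>
    double7 (ν := ν) 2 (Dbq_w z s) (Dbq_w_meas z s) z (Dbq_w_int h z s) (Dbq_w_int2 h z s) ht
  have hi : ∀ s ∈ (Finset.univ : Finset (Fin d × Fin d × Fin d)), Integrable (fun p : X d × X d =>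
      t⁻¹ ^ 5 * (Dbq_w z s p.1 * Dbq_w z s p.2 * mta 2 (p.1 - z) (p.2 - z) t)) (ν.prod ν) :=
    fun s _ => (key s).1.const_mul _
  refine ⟨?_, ?_⟩
  · refine (integrable_finsetSum _ hi).congr (Filter.Eventually.of_forall fun p => ?_)
    simp only
    exact (Dbq_f2 z p t).symm
  · rw [integral_congr_ae (Filter.Eventually.of_forall fun p => Dbq_f2 z p t),
      integral_finsetSum _ hi]
    refine Finset.sum_nonneg fun s _ => ?_
    rw [integral_const_mul]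
    refine mul_nonneg ht5 ?_
    have h0 : 0 ≤ ∫ Y : X d, (∫ x, Dbq_w z s x * ek 2 (2 / t ^ 2) z x Y ∂ν) ^ 2 :=
      integral_nonneg fun Y => by positivity
    rw [(key s).2.2] at h0
    exact nonneg_of_mul_nonneg_right h0 hconst

end Pool.Agent.H48.R7
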