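import Pool.Agent.H48.R7.Defs

/-!
Template: Pool/Agent/H1/LD/En2.lean, En2_t1, t2, t3, i1, i2, i3, ae with 3 replaced by 7.
-/

set_option autoImplicit false

open MeasureTheory Filter Topology Metric Set
open scoped RealInnerProductSpace ENNReal

namespace Pool.Agent.H48.R7

open Pool.Agent.RZ Pool.Agent.H1.LD

variable {d : ℕ}

theorem EnA_rev (p q : X d) : ‖p - q‖ₑ = ‖q - p‖ₑ := by
  rw [← enorm_neg, neg_sub]

theorem EnA_hne (p q : X d) : ‖p - q‖ₑ⁻¹ ^ 7 ≠ 0 := by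
  simp

theorem EnA_le (p q : X d) : ‖‖p - q‖⁻¹ ^ 7‖ₑ ≤ ‖p - q‖ₑ⁻¹ ^ 7 := by
  rcases eq_or_ne p q with rfl | h
  · simp
  · have h1 : 0 < ‖p - q‖ := norm_pos_iff.2 (sub_ne_zero.2 h)
    rw [Real.enorm_eq_ofReal (by positivity), ENNReal.ofReal_pow (by positivity),
      ENNReal.ofReal_inv_of_pos h1, ofReal_norm]

theorem EnA_t1 {ν : Measure (X d)} (h : Nice7 ν) :
    ∫⁻ q : X d × (X d × X d), ‖q.2.1 - q.1‖ₑ⁻¹ ^ 7 * ‖q.2.2 - q.1‖ₑ⁻¹ ^ 7
      ∂(ν.prod (ν.prod ν)) < ∞ := by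
  obtain ⟨hf, C, hC⟩ := h
  have := hf
  rw [lintegral_prod _ (by fun_prop)]
  calc _ ≤ ∫⁻ z, ENNReal.ofReal C * ENNReal.ofReal C ∂ν := by
        refine lintegral_mono fun z => ?_
        rw [lintegral_prod _ (by fun_prop)]
        calc _ ≤ ∫⁻ x, ‖x - z‖ₑ⁻¹ ^ 7 * ENNReal.ofReal C ∂ν := by
              refine lintegral_mono fun x => ?_
              simp only
              rw [lintegral_const_mul _ (by fun_prop)]
              gcongr
              exact hC z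
          _ = (∫⁻ x, ‖x - z‖ₑ⁻¹ ^ 7 ∂ν) * ENNReal.ofReal C :=
              lintegral_mul_const _ (by fun_prop)
          _ ≤ _ := by gcongr; exact hC z
    _ = ENNReal.ofReal C * ENNReal.ofReal C * ν univ := lintegral_const _
    _ < ∞ := ENNReal.mul_lt_top (ENNReal.mul_lt_top ENNReal.ofReal_lt_top
        ENNReal.ofReal_lt_top) (measure_lt_top _ _)

theorem EnA_t2 {ν : Measure (X d)} (h : Nice7 ν) :
    ∫⁻ q : X d × (X d × X d), ‖q.2.1 - q.1‖ₑ⁻¹ ^ 7 * ‖q.2.1 - q.2.2‖ₑ⁻¹ ^ 7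
      ∂(ν.prod (ν.prod ν)) < ∞ := by
  obtain ⟨hf, C, hC⟩ := h
  have := hf
  rw [lintegral_prod _ (by fun_prop)]
  calc _ ≤ ∫⁻ z, ENNReal.ofReal C * ENNReal.ofReal C ∂ν := by
        refine lintegral_mono fun z => ?_
        rw [lintegral_prod _ (by fun_prop)]
        calc _ ≤ ∫⁻ x, ‖x - z‖ₑ⁻¹ ^ 7 * ENNReal.ofReal C ∂ν := by
              refine lintegral_mono fun x => ?_
              simp only
              rw [lintegral_const_mul _ (by fun_prop)]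
              gcongr
              simp only [EnA_rev x]
              exact hC x
          _ = (∫⁻ x, ‖x - z‖ₑ⁻¹ ^ 7 ∂ν) * ENNReal.ofReal C :=
              lintegral_mul_const _ (by fun_prop)
          _ ≤ _ := by gcongr; exact hC z
    _ = ENNReal.ofReal C * ENNReal.ofReal C * ν univ := lintegral_const _
    _ < ∞ := ENNReal.mul_lt_top (ENNReal.mul_lt_top ENNReal.ofReal_lt_top
        ENNReal.ofReal_lt_top) (measure_lt_top _ _)

theorem EnA_t3 {ν : Measure (X d)} (h : Nice7 ν) :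
    ∫⁻ q : X d × (X d × X d), ‖q.2.2 - q.1‖ₑ⁻¹ ^ 7 * ‖q.2.1 - q.2.2‖ₑ⁻¹ ^ 7
      ∂(ν.prod (ν.prod ν)) < ∞ := by
  obtain ⟨hf, C, hC⟩ := h
  have := hf
  rw [lintegral_prod _ (by fun_prop)]
  calc _ ≤ ∫⁻ z, ENNReal.ofReal C * ENNReal.ofReal C ∂ν := by
        refine lintegral_mono fun z => ?_
        rw [lintegral_prod_symm _ (by fun_prop)]
        calc _ ≤ ∫⁻ x, ‖x - z‖ₑ⁻¹ ^ 7 * ENNReal.ofReal C ∂ν := by
              refine lintegral_mono fun x => ?_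
              simp only
              rw [lintegral_const_mul _ (by fun_prop)]
              gcongr
              exact hC x
          _ = (∫⁻ x, ‖x - z‖ₑ⁻¹ ^ 7 ∂ν) * ENNReal.ofReal C :=
              lintegral_mul_const _ (by fun_prop)
          _ ≤ _ := by gcongr; exact hC z
    _ = ENNReal.ofReal C * ENNReal.ofReal C * ν univ := lintegral_const _
    _ < ∞ := ENNReal.mul_lt_top (ENNReal.mul_lt_top ENNReal.ofReal_lt_top
        ENNReal.ofReal_lt_top) (measure_lt_top _ _)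

theorem EnA_i1 {ν : Measure (X d)} (h : Nice7 ν) :
    Integrable (fun q : X d × (X d × X d) => ‖q.2.1 - q.1‖⁻¹ ^ 7 * ‖q.2.2 - q.1‖⁻¹ ^ 7)
      (ν.prod (ν.prod ν)) := by
  refine ⟨by fun_prop, lt_of_le_of_lt (lintegral_mono fun q => ?_) (EnA_t1 h)⟩
  rw [enorm_mul]
  exact mul_le_mul' (EnA_le _ _) (EnA_le _ _)

theorem EnA_i2 {ν : Measure (X d)} (h : Nice7 ν) :
    Integrable (fun q : X d × (X d × X d) => ‖q.2.1 - q.1‖⁻¹ ^ 7 * ‖q.2.1 - q.2.2‖⁻¹ ^ 7)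
      (ν.prod (ν.prod ν)) := by
  refine ⟨by fun_prop, lt_of_le_of_lt (lintegral_mono fun q => ?_) (EnA_t2 h)⟩
  rw [enorm_mul]
  exact mul_le_mul' (EnA_le _ _) (EnA_le _ _)

theorem EnA_i3 {ν : Measure (X d)} (h : Nice7 ν) :
    Integrable (fun q : X d × (X d × X d) => ‖q.2.2 - q.1‖⁻¹ ^ 7 * ‖q.2.1 - q.2.2‖⁻¹ ^ 7)
      (ν.prod (ν.prod ν)) := by
  refine ⟨by fun_prop, lt_of_le_of_lt (lintegral_mono fun q => ?_) (EnA_t3 h)⟩
  rw [enorm_mul]
  exact mul_le_mul' (EnA_le _ _) (EnA_le _ _)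

theorem S7_int {ν : Measure (X d)} (h : Nice7 ν) :
    Integrable (S7 (d := d)) (ν.prod (ν.prod ν)) := by
  have e := ((EnA_i1 h).add (EnA_i2 h)).add (EnA_i3 h)
  exact e

theorem ae7 {ν : Measure (X d)} (h : Nice7 ν) :
    ∀ᵐ q : X d × (X d × X d) ∂(ν.prod (ν.prod ν)),
      q.2.1 ≠ q.1 ∧ q.2.2 ≠ q.1 ∧ q.2.1 ≠ q.2.2 := by
  have := h.1
  filter_upwards [ae_lt_top (by fun_prop) (EnA_t1 h).ne, ae_lt_top (by fun_prop) (EnA_t2 h).ne]
    with q h1 h2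
  refine ⟨fun e => ?_, fun e => ?_, fun e => ?_⟩
  · rw [e] at h1
    refine absurd h1 (not_lt.2 (top_le_iff.2 ?_))
    rw [ENNReal.mul_eq_top]
    exact Or.inr ⟨by simp, EnA_hne _ _⟩
  · rw [e] at h1
    refine absurd h1 (not_lt.2 (top_le_iff.2 ?_))
    rw [ENNReal.mul_eq_top]
    exact Or.inl ⟨EnA_hne _ _, by simp⟩
  · rw [e] at h2
    refine absurd h2 (not_lt.2 (top_le_iff.2 ?_))
    rw [ENNReal.mul_eq_top]
    exact Or.inl ⟨EnA_hne _ _, by simp⟩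

end Pool.Agent.H48.R7
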