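import Pool.Agent.H48.R7.Defs

/-!
ker7 (template: Pool/Agent/H1/LD/KerB.lean, KerB_alg and ker_id).  Put A = ‖a‖², B = ‖b‖², C = ‖a-b‖²,
p = ⟪a,b⟫ = (A+B-C)/2, ⟪a,a-b⟫ = (A+C-B)/2, ⟪b,b-a⟫ = (B+C-A)/2.  W7 a b is
(1/3)(AB)⁻³ i1 + (2/3)(AB)⁻⁴ p³ i2, i1 = -1/(2C) + p/C² + 4PR/C³, i2 = -2/C² + 2p/C³ + 12PR/C⁴.
The pair (-a, b-a) has norms ‖a‖, ‖a-b‖, difference -a-(b-a) = -b of norm ‖b‖, inner product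
⟪-a,b-a⟫ = ⟪a,a-b⟫; ⟪-a,-a-(b-a)⟫ = ⟪-a,-b⟫ = p; ⟪b-a,(b-a)-(-a)⟫ = ⟪b-a,b⟫ = ⟪b,b-a⟫.
The pair (a-b,-b) has norms ‖a-b‖, ‖b‖, difference a, inner product ⟪a-b,-b⟫ = ⟪b,b-a⟫;
⟪a-b,a⟫ = ⟪a,a-b⟫; ⟪-b,-b-(a-b)⟫ = ⟪-b,-a⟫ = p.
So everything is a rational identity in x = ‖a‖, y = ‖b‖, c = ‖a-b‖ (p substituted): field_simp; ring.
It was checked with exact fractions.
mono7: with A = uv, B = vw, C = wu the three monomials are A⁵BC, A³B²C², AB³C³; each is at most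
max(A,B,C)⁷ ≤ A⁷+B⁷+C⁷.
W7_bound: |i1| ≤ 2c⁻²+5‖a‖‖b‖c⁻⁴, |i2| ≤ 6c⁻⁴+14‖a‖‖b‖c⁻⁶, then with u=‖a‖⁻¹, v=‖b‖⁻¹, w=c⁻¹:
|W7| ≤ (2/3)u⁶v⁶w² + (17/3)u⁵v⁵w⁴ + (28/3)u⁴v⁴w⁶.
-/

set_option autoImplicit false

open MeasureTheory Filter Topology Metric Set
open scoped RealInnerProductSpace ENNReal

namespace Pool.Agent.H48.R7

open Pool.Agent.RZ Pool.Agent.H1.LD

variable {d : ℕ}

private noncomputable def Ker_w (x y c p P R : ℝ) : ℝ :=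
  (1 / 3) * (x⁻¹ ^ 6 * y⁻¹ ^ 6 * (-(1 / 2) * c⁻¹ ^ 2 + p * c⁻¹ ^ 4 + 4 * (P * R) * c⁻¹ ^ 6)) +
    (2 / 3) * (x⁻¹ ^ 8 * y⁻¹ ^ 8 * p ^ 3 *
      (-2 * c⁻¹ ^ 4 + 2 * p * c⁻¹ ^ 6 + 12 * (P * R) * c⁻¹ ^ 8))

private theorem Ker_W7 (a b : X d) :
    W7 a b = Ker_w ‖a‖ ‖b‖ ‖a - b‖ ⟪a, b⟫ ⟪a, a - b⟫ ⟪b, b - a⟫ := rfl

private theorem Ker_alg0 {A B C : ℝ} (hA : A ≠ 0) (hB : B ≠ 0) (hC : C ≠ 0) :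
    ((1 / 3) * (A⁻¹ ^ 3 * B⁻¹ ^ 3 * (-(1 / 2) * C⁻¹ + (A + B - C) / 2 * C⁻¹ ^ 2 +
        4 * ((A + C - B) / 2 * ((B + C - A) / 2)) * C⁻¹ ^ 3)) +
      (2 / 3) * (A⁻¹ ^ 4 * B⁻¹ ^ 4 * ((A + B - C) / 2) ^ 3 *
        (-2 * C⁻¹ ^ 2 + 2 * ((A + B - C) / 2) * C⁻¹ ^ 3 +
          12 * ((A + C - B) / 2 * ((B + C - A) / 2)) * C⁻¹ ^ 4))) +
    ((1 / 3) * (A⁻¹ ^ 3 * C⁻¹ ^ 3 * (-(1 / 2) * B⁻¹ + (A + C - B) / 2 * B⁻¹ ^ 2 +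
        4 * ((A + B - C) / 2 * ((B + C - A) / 2)) * B⁻¹ ^ 3)) +
      (2 / 3) * (A⁻¹ ^ 4 * C⁻¹ ^ 4 * ((A + C - B) / 2) ^ 3 *
        (-2 * B⁻¹ ^ 2 + 2 * ((A + C - B) / 2) * B⁻¹ ^ 3 +
          12 * ((A + B - C) / 2 * ((B + C - A) / 2)) * B⁻¹ ^ 4))) +
    ((1 / 3) * (C⁻¹ ^ 3 * B⁻¹ ^ 3 * (-(1 / 2) * A⁻¹ + (B + C - A) / 2 * A⁻¹ ^ 2 +
        4 * ((A + C - B) / 2 * ((A + B - C) / 2)) * A⁻¹ ^ 3)) +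
      (2 / 3) * (C⁻¹ ^ 4 * B⁻¹ ^ 4 * ((B + C - A) / 2) ^ 3 *
        (-2 * A⁻¹ ^ 2 + 2 * ((B + C - A) / 2) * A⁻¹ ^ 3 +
          12 * ((A + C - B) / 2 * ((A + B - C) / 2)) * A⁻¹ ^ 4))) =
    A⁻¹ ^ 4 * B⁻¹ ^ 4 * ((A + B - C) / 2) + A⁻¹ ^ 4 * C⁻¹ ^ 4 * ((A + C - B) / 2) +
      C⁻¹ ^ 4 * B⁻¹ ^ 4 * ((B + C - A) / 2) := by
  field_simp
  ring

private theorem Ker_alg {x y c p P R : ℝ} (hx : x ≠ 0) (hy : y ≠ 0) (hc : c ≠ 0)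
    (hp : p = (x ^ 2 + y ^ 2 - c ^ 2) / 2) (hP : P = (x ^ 2 + c ^ 2 - y ^ 2) / 2)
    (hR : R = (y ^ 2 + c ^ 2 - x ^ 2) / 2) :
    Ker_w x y c p P R + Ker_w x c y P p R + Ker_w c y x R P p =
      x⁻¹ ^ 8 * y⁻¹ ^ 8 * p + x⁻¹ ^ 8 * c⁻¹ ^ 8 * P + c⁻¹ ^ 8 * y⁻¹ ^ 8 * R := by
  have h := Ker_alg0 (A := x ^ 2) (B := y ^ 2) (C := c ^ 2) (pow_ne_zero 2 hx) (pow_ne_zero 2 hy)
    (pow_ne_zero 2 hc)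
  have e : ∀ s : ℝ, s⁻¹ ^ 2 = (s ^ 2)⁻¹ ∧ s⁻¹ ^ 4 = (s ^ 2)⁻¹ ^ 2 ∧ s⁻¹ ^ 6 = (s ^ 2)⁻¹ ^ 3 ∧
      s⁻¹ ^ 8 = (s ^ 2)⁻¹ ^ 4 := by
    intro s
    refine ⟨by rw [inv_pow], ?_, ?_, ?_⟩ <;> rw [← inv_pow, ← pow_mul]
  unfold Ker_w
  rw [hp, hP, hR, (e x).1, (e x).2.1, (e x).2.2.1, (e x).2.2.2, (e y).1, (e y).2.1, (e y).2.2.1,
    (e y).2.2.2, (e c).1, (e c).2.1, (e c).2.2.1, (e c).2.2.2]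
  exact h

theorem ker7 {a b : X d} (ha : a ≠ 0) (hb : b ≠ 0) (h : a ≠ b) :
    W7 a b + W7 (-a) (b - a) + W7 (a - b) (-b) = L7 a b + L7 (-a) (b - a) + L7 (a - b) (-b) := by
  have hx : ‖a‖ ≠ 0 := norm_ne_zero_iff.2 ha
  have hy : ‖b‖ ≠ 0 := norm_ne_zero_iff.2 hb
  have hc : ‖a - b‖ ≠ 0 := norm_ne_zero_iff.2 (sub_ne_zero.2 h)
  have h3 : ‖a - b‖ ^ 2 = ‖a‖ ^ 2 + ‖b‖ ^ 2 - 2 * ⟪a, b⟫ := by rw [norm_sub_sq_real]; ring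
  have h1 : ⟪a, a - b⟫ = ‖a‖ ^ 2 - ⟪a, b⟫ := by rw [inner_sub_right, real_inner_self_eq_norm_sq]
  have h2 : ⟪b, b - a⟫ = ‖b‖ ^ 2 - ⟪a, b⟫ := by
    rw [inner_sub_right, real_inner_self_eq_norm_sq, real_inner_comm]
  have n1 : ‖b - a‖ = ‖a - b‖ := norm_sub_rev b a
  have n2 : -a - (b - a) = -b := by abel
  have n3 : b - a - -a = b := by abel
  have n4 : a - b - -b = a := by abel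
  have n5 : -b - (a - b) = -a := by abel
  have q1 : ⟪-a, b - a⟫ = ⟪a, a - b⟫ := by
    rw [inner_neg_left, ← inner_neg_right, neg_sub]
  have q2 : ⟪-a, -b⟫ = ⟪a, b⟫ := by rw [inner_neg_left, inner_neg_right, neg_neg]
  have q3 : ⟪b - a, b⟫ = ⟪b, b - a⟫ := real_inner_comm _ _
  have q4 : ⟪a - b, -b⟫ = ⟪b, b - a⟫ := by
    rw [inner_neg_right, ← inner_neg_left, neg_sub, real_inner_comm]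
  have q5 : ⟪a - b, a⟫ = ⟪a, a - b⟫ := real_inner_comm _ _
  have q6 : ⟪-b, -a⟫ = ⟪a, b⟫ := by
    rw [inner_neg_left, inner_neg_right, neg_neg, real_inner_comm]
  have w2 : W7 (-a) (b - a) = Ker_w ‖a‖ ‖a - b‖ ‖b‖ ⟪a, a - b⟫ ⟪a, b⟫ ⟪b, b - a⟫ := by
    rw [Ker_W7, n2, n3, norm_neg, norm_neg, n1, q1, q2, q3]
  have w3 : W7 (a - b) (-b) = Ker_w ‖a - b‖ ‖b‖ ‖a‖ ⟪b, b - a⟫ ⟪a, a - b⟫ ⟪a, b⟫ := by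
    rw [Ker_W7, n4, n5, norm_neg, q4, q5, q6]
  have l2 : L7 (-a) (b - a) = ‖a‖⁻¹ ^ 8 * ‖a - b‖⁻¹ ^ 8 * ⟪a, a - b⟫ := by
    unfold L7
    rw [norm_neg, n1, q1]
  have l3 : L7 (a - b) (-b) = ‖a - b‖⁻¹ ^ 8 * ‖b‖⁻¹ ^ 8 * ⟪b, b - a⟫ := by
    unfold L7
    rw [norm_neg, q4]
  rw [w2, w3, l2, l3, Ker_W7]
  unfold L7
  exact Ker_alg hx hy hc (by linarith) (by linarith) (by linarith)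

theorem W7_symm (a b : X d) : W7 a b = W7 b a := by
  unfold W7 i1 i2
  rw [norm_sub_rev b a, real_inner_comm b a]
  ring

private theorem Ker_pow {a b c : ℝ} (ha : 0 ≤ a) (hb : 0 ≤ b) (hc : 0 ≤ c) {i j k : ℕ}
    (h : i + j + k = 7) : a ^ i * b ^ j * c ^ k ≤ a ^ 7 + c ^ 7 + b ^ 7 := by
  obtain ⟨M, hM⟩ : ∃ M, M = max a (max b c) := ⟨_, rfl⟩
  have h1 : a ≤ M := by rw [hM]; exact le_max_left _ _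
  have h2 : b ≤ M := by rw [hM]; exact (le_max_left _ _).trans (le_max_right _ _)
  have h3 : c ≤ M := by rw [hM]; exact (le_max_right _ _).trans (le_max_right _ _)
  have hM0 : 0 ≤ M := ha.trans h1
  have h4 : a ^ i * b ^ j * c ^ k ≤ M ^ i * M ^ j * M ^ k := by
    refine mul_le_mul (mul_le_mul (pow_le_pow_left₀ ha h1 i) (pow_le_pow_left₀ hb h2 j)
      (pow_nonneg hb j) (pow_nonneg hM0 i)) (pow_le_pow_left₀ hc h3 k) (pow_nonneg hc k) ?_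
    exact mul_nonneg (pow_nonneg hM0 i) (pow_nonneg hM0 j)
  rw [← pow_add, ← pow_add, h] at h4
  have p1 := pow_nonneg ha 7
  have p2 := pow_nonneg hb 7
  have p3 := pow_nonneg hc 7
  have h5 : M = a ∨ M = b ∨ M = c := by
    rw [hM]
    rcases max_choice a (max b c) with e | e
    · exact Or.inl e
    · rcases max_choice b c with e' | e'
      · exact Or.inr (Or.inl (e.trans e'))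
      · exact Or.inr (Or.inr (e.trans e'))
  rcases h5 with e | e | e <;> rw [e] at h4 <;> linarith

theorem mono7 {u v w : ℝ} (hu : 0 ≤ u) (hv : 0 ≤ v) (hw : 0 ≤ w) :
    u ^ 6 * v ^ 6 * w ^ 2 ≤ u ^ 7 * v ^ 7 + u ^ 7 * w ^ 7 + v ^ 7 * w ^ 7 ∧
    u ^ 5 * v ^ 5 * w ^ 4 ≤ u ^ 7 * v ^ 7 + u ^ 7 * w ^ 7 + v ^ 7 * w ^ 7 ∧
    u ^ 4 * v ^ 4 * w ^ 6 ≤ u ^ 7 * v ^ 7 + u ^ 7 * w ^ 7 + v ^ 7 * w ^ 7 := by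
  have hA : 0 ≤ u * v := mul_nonneg hu hv
  have hB : 0 ≤ v * w := mul_nonneg hv hw
  have hC : 0 ≤ u * w := mul_nonneg hu hw
  have h1 := Ker_pow (i := 5) (j := 1) (k := 1) hA hB hC rfl
  have h2 := Ker_pow (i := 3) (j := 2) (k := 2) hA hB hC rfl
  have h3 := Ker_pow (i := 1) (j := 3) (k := 3) hA hB hC rfl
  have e : (u * v) ^ 7 + (u * w) ^ 7 + (v * w) ^ 7
      = u ^ 7 * v ^ 7 + u ^ 7 * w ^ 7 + v ^ 7 * w ^ 7 := by ring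
  rw [e] at h1 h2 h3
  refine ⟨?_, ?_, ?_⟩
  · refine le_trans (le_of_eq ?_) h1
    ring
  · refine le_trans (le_of_eq ?_) h2
    ring
  · refine le_trans (le_of_eq ?_) h3
    ring

private theorem Ker_bd {x y c p q : ℝ} (hx : 0 < x) (hy : 0 < y) (hc : 0 < c)
    (hp : |p| ≤ x * y) (hq : |q| ≤ x * y * c ^ 2) :
    |(1 / 3) * (x⁻¹ ^ 6 * y⁻¹ ^ 6 * (-(1 / 2) * c⁻¹ ^ 2 + p * c⁻¹ ^ 4 + 4 * q * c⁻¹ ^ 6)) +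
      (2 / 3) * (x⁻¹ ^ 8 * y⁻¹ ^ 8 * p ^ 3 *
        (-2 * c⁻¹ ^ 4 + 2 * p * c⁻¹ ^ 6 + 12 * q * c⁻¹ ^ 8))| ≤
    (1 / 6) * (x⁻¹ ^ 6 * y⁻¹ ^ 6 * c⁻¹ ^ 2) + 3 * (x⁻¹ ^ 5 * y⁻¹ ^ 5 * c⁻¹ ^ 4) +
      (28 / 3) * (x⁻¹ ^ 4 * y⁻¹ ^ 4 * c⁻¹ ^ 6) := by
  obtain ⟨p1, p2⟩ := abs_le.1 hp
  obtain ⟨q1, q2⟩ := abs_le.1 hq
  have hw4 : 0 ≤ c⁻¹ ^ 4 := by positivity
  have hw6 : 0 ≤ c⁻¹ ^ 6 := by positivity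
  have hw8 : 0 ≤ c⁻¹ ^ 8 := by positivity
  have hw2 : 0 ≤ c⁻¹ ^ 2 := by positivity
  have e6 : x * y * c ^ 2 * c⁻¹ ^ 6 = x * y * c⁻¹ ^ 4 := by field_simp
  have e8 : x * y * c ^ 2 * c⁻¹ ^ 8 = x * y * c⁻¹ ^ 6 := by field_simp
  have a1 := mul_le_mul_of_nonneg_right p1 hw4
  have a2 := mul_le_mul_of_nonneg_right p2 hw4
  have b1 := mul_le_mul_of_nonneg_right p1 hw6
  have b2 := mul_le_mul_of_nonneg_right p2 hw6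
  have c1 := mul_le_mul_of_nonneg_right q1 hw6
  have c2 := mul_le_mul_of_nonneg_right q2 hw6
  have d1 := mul_le_mul_of_nonneg_right q1 hw8
  have d2 := mul_le_mul_of_nonneg_right q2 hw8
  rw [neg_mul] at a1 b1 c1 d1
  rw [e6] at c1 c2
  rw [e8] at d1 d2
  have i1 : |-(1 / 2) * c⁻¹ ^ 2 + p * c⁻¹ ^ 4 + 4 * q * c⁻¹ ^ 6| ≤
      (1 / 2) * c⁻¹ ^ 2 + 5 * (x * y * c⁻¹ ^ 4) :=
    abs_le.2 ⟨by linarith, by linarith⟩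
  have i2 : |-2 * c⁻¹ ^ 4 + 2 * p * c⁻¹ ^ 6 + 12 * q * c⁻¹ ^ 8| ≤
      2 * c⁻¹ ^ 4 + 14 * (x * y * c⁻¹ ^ 6) :=
    abs_le.2 ⟨by linarith, by linarith⟩
  have hX : 0 ≤ x⁻¹ ^ 6 * y⁻¹ ^ 6 := by positivity
  have hY : 0 ≤ x⁻¹ ^ 8 * y⁻¹ ^ 8 := by positivity
  have hp3 : |p ^ 3| ≤ (x * y) ^ 3 := by
    rw [abs_pow]
    exact pow_le_pow_left₀ (abs_nonneg p) hp 3
  have j1 : |(1 / 3) * (x⁻¹ ^ 6 * y⁻¹ ^ 6 *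
      (-(1 / 2) * c⁻¹ ^ 2 + p * c⁻¹ ^ 4 + 4 * q * c⁻¹ ^ 6))| ≤
      (1 / 3) * (x⁻¹ ^ 6 * y⁻¹ ^ 6 * ((1 / 2) * c⁻¹ ^ 2 + 5 * (x * y * c⁻¹ ^ 4))) := by
    rw [abs_mul, abs_mul, abs_of_nonneg hX, abs_of_pos (by norm_num : (0 : ℝ) < 1 / 3)]
    exact mul_le_mul_of_nonneg_left (mul_le_mul_of_nonneg_left i1 hX) (by norm_num)
  have j2 : |(2 / 3) * (x⁻¹ ^ 8 * y⁻¹ ^ 8 * p ^ 3 *
      (-2 * c⁻¹ ^ 4 + 2 * p * c⁻¹ ^ 6 + 12 * q * c⁻¹ ^ 8))| ≤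
      (2 / 3) * (x⁻¹ ^ 8 * y⁻¹ ^ 8 * (x * y) ^ 3 * (2 * c⁻¹ ^ 4 + 14 * (x * y * c⁻¹ ^ 6))) := by
    rw [abs_mul, abs_mul, abs_mul, abs_of_nonneg hY, abs_of_pos (by norm_num : (0 : ℝ) < 2 / 3)]
    refine mul_le_mul_of_nonneg_left ?_ (by norm_num)
    exact mul_le_mul (mul_le_mul_of_nonneg_left hp3 hY) i2 (abs_nonneg _)
      (mul_nonneg hY (by positivity))
  refine (abs_add_le _ _).trans ((add_le_add j1 j2).trans (le_of_eq ?_))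
  field_simp
  ring

theorem W7_bound {a b : X d} (ha : a ≠ 0) (hb : b ≠ 0) (h : a ≠ b) :
    |W7 a b| ≤ 16 * (‖a‖⁻¹ ^ 7 * ‖b‖⁻¹ ^ 7 + ‖a‖⁻¹ ^ 7 * ‖a - b‖⁻¹ ^ 7 +
      ‖b‖⁻¹ ^ 7 * ‖a - b‖⁻¹ ^ 7) := by
  have hx : 0 < ‖a‖ := norm_pos_iff.2 ha
  have hy : 0 < ‖b‖ := norm_pos_iff.2 hb
  have hc : 0 < ‖a - b‖ := norm_pos_iff.2 (sub_ne_zero.2 h)
  have hp : |⟪a, b⟫| ≤ ‖a‖ * ‖b‖ := abs_real_inner_le_norm a b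
  have hP : |⟪a, a - b⟫| ≤ ‖a‖ * ‖a - b‖ := abs_real_inner_le_norm _ _
  have hR : |⟪b, b - a⟫| ≤ ‖b‖ * ‖a - b‖ := by
    rw [norm_sub_rev a b]
    exact abs_real_inner_le_norm _ _
  have hq : |⟪a, a - b⟫ * ⟪b, b - a⟫| ≤ ‖a‖ * ‖b‖ * ‖a - b‖ ^ 2 := by
    rw [abs_mul]
    calc |⟪a, a - b⟫| * |⟪b, b - a⟫| ≤ (‖a‖ * ‖a - b‖) * (‖b‖ * ‖a - b‖) :=
          mul_le_mul hP hR (abs_nonneg _) (by positivity)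
      _ = ‖a‖ * ‖b‖ * ‖a - b‖ ^ 2 := by ring
  have h1 := Ker_bd hx hy hc hp hq
  obtain ⟨m1, m2, m3⟩ := mono7 (u := ‖a‖⁻¹) (v := ‖b‖⁻¹) (w := ‖a - b‖⁻¹) (by positivity)
    (by positivity) (by positivity)
  have h2 : 0 ≤ ‖a‖⁻¹ ^ 7 * ‖b‖⁻¹ ^ 7 + ‖a‖⁻¹ ^ 7 * ‖a - b‖⁻¹ ^ 7 +
      ‖b‖⁻¹ ^ 7 * ‖a - b‖⁻¹ ^ 7 := by positivity
  unfold W7 i1 i2
  linarith

end Pool.Agent.H48.R7
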