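import Pool.Agent.H48.R7.EnA
import Pool.Agent.H48.R7.Tim
import Pool.Agent.H48.R7.Ker

/-!
Template: Pool/Agent/H1/LD/En2.lean, En2_sl and En2_int.  For pairwise different z, p.1, p.2 put
u = ‖p.1-z‖⁻¹, v = ‖p.2-z‖⁻¹, w = ‖p.1-p.2‖⁻¹ ((p.1-z)-(p.2-z) = p.1-p.2).
sl1 (mta_int1): ∫|f1| ≤ u⁶v⁶(2w² + 5u⁻¹v⁻¹w⁴) = 2u⁶v⁶w² + 5u⁵v⁵w⁴ ≤ 7 S7 (mono7).
sl2 (mta_int2, |⟪⟫|³ ≤ u⁻³v⁻³): ∫|f2| ≤ u⁸v⁸u⁻³v⁻³(6w⁴+14u⁻¹v⁻¹w⁶) = 6u⁵v⁵w⁴+14u⁴v⁴w⁶ ≤ 20 S7.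
fint1, fint2: as En2_int (S7_int, ae7).
-/

set_option autoImplicit false

open MeasureTheory Filter Topology Metric Set
open scoped RealInnerProductSpace ENNReal

namespace Pool.Agent.H48.R7

open Pool.Agent.RZ Pool.Agent.H1.LD

variable {d : ℕ}

theorem sl1 {z : X d} {p : X d × X d} (hp : p.1 ≠ z ∧ p.2 ≠ z ∧ p.1 ≠ p.2) :
    IntegrableOn (fun t : ℝ => f1 z p t) (Ioi 0) ∧
    ∫ t in Ioi (0 : ℝ), f1 z p t =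
      ‖p.1 - z‖⁻¹ ^ 6 * ‖p.2 - z‖⁻¹ ^ 6 * i1 (p.1 - z) (p.2 - z) ∧
    ∫ t in Ioi (0 : ℝ), ‖f1 z p t‖ ≤ 7 * S7 (z, p) := by
  obtain ⟨h1, h2, h3⟩ := hp
  have hab : p.1 - z ≠ p.2 - z := fun e => h3 (sub_left_injective e)
  obtain ⟨m1, m2, m3⟩ := mta_int1 hab
  have ef : ∀ t : ℝ, f1 z p t =
      (‖p.1 - z‖⁻¹ ^ 6 * ‖p.2 - z‖⁻¹ ^ 6) * (mta 1 (p.1 - z) (p.2 - z) t * t⁻¹ ^ 3) :=
    fun t => rfl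
  refine ⟨?_, ?_, ?_⟩
  · simp only [ef]
    exact m1.const_mul _
  · simp only [ef]
    rw [integral_const_mul, m2]
  · have ha : 0 < ‖p.1 - z‖ := norm_pos_iff.2 (sub_ne_zero.2 h1)
    have hb : 0 < ‖p.2 - z‖ := norm_pos_iff.2 (sub_ne_zero.2 h2)
    have hc : 0 < ‖p.1 - p.2‖ := norm_pos_iff.2 (sub_ne_zero.2 h3)
    have ef' : ∀ t : ℝ, ‖f1 z p t‖ =
        (‖p.1 - z‖⁻¹ ^ 6 * ‖p.2 - z‖⁻¹ ^ 6) * |mta 1 (p.1 - z) (p.2 - z) t * t⁻¹ ^ 3| := by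
      intro t
      rw [ef, norm_mul, Real.norm_of_nonneg (by positivity), Real.norm_eq_abs]
    simp only [ef']
    rw [integral_const_mul]
    rw [sub_sub_sub_cancel_right] at m3
    obtain ⟨k1, k2, k3⟩ := mono7 (u := ‖p.1 - z‖⁻¹) (v := ‖p.2 - z‖⁻¹) (w := ‖p.1 - p.2‖⁻¹)
      (by positivity) (by positivity) (by positivity)
    have e7 : S7 (z, p) = ‖p.1 - z‖⁻¹ ^ 7 * ‖p.2 - z‖⁻¹ ^ 7 +
        ‖p.1 - z‖⁻¹ ^ 7 * ‖p.1 - p.2‖⁻¹ ^ 7 + ‖p.2 - z‖⁻¹ ^ 7 * ‖p.1 - p.2‖⁻¹ ^ 7 := rfl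
    calc _ ≤ (‖p.1 - z‖⁻¹ ^ 6 * ‖p.2 - z‖⁻¹ ^ 6) *
          (2 * ‖p.1 - p.2‖⁻¹ ^ 2 + 5 * (‖p.1 - z‖ * ‖p.2 - z‖) * ‖p.1 - p.2‖⁻¹ ^ 4) := by
          gcongr
      _ = 2 * (‖p.1 - z‖⁻¹ ^ 6 * ‖p.2 - z‖⁻¹ ^ 6 * ‖p.1 - p.2‖⁻¹ ^ 2) +
          5 * (‖p.1 - z‖⁻¹ ^ 5 * ‖p.2 - z‖⁻¹ ^ 5 * ‖p.1 - p.2‖⁻¹ ^ 4) := by
          field_simp
      _ ≤ 7 * S7 (z, p) := by
          rw [e7]
          linarith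

theorem sl2 {z : X d} {p : X d × X d} (hp : p.1 ≠ z ∧ p.2 ≠ z ∧ p.1 ≠ p.2) :
    IntegrableOn (fun t : ℝ => f2 z p t) (Ioi 0) ∧
    ∫ t in Ioi (0 : ℝ), f2 z p t =
      ‖p.1 - z‖⁻¹ ^ 8 * ‖p.2 - z‖⁻¹ ^ 8 * ⟪p.1 - z, p.2 - z⟫ ^ 3 * i2 (p.1 - z) (p.2 - z) ∧
    ∫ t in Ioi (0 : ℝ), ‖f2 z p t‖ ≤ 20 * S7 (z, p) := by
  obtain ⟨h1, h2, h3⟩ := hp
  have hab : p.1 - z ≠ p.2 - z := fun e => h3 (sub_left_injective e)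
  obtain ⟨m1, m2, m3⟩ := mta_int2 hab
  have ef : ∀ t : ℝ, f2 z p t =
      (‖p.1 - z‖⁻¹ ^ 8 * ‖p.2 - z‖⁻¹ ^ 8 * ⟪p.1 - z, p.2 - z⟫ ^ 3) *
        (mta 2 (p.1 - z) (p.2 - z) t * t⁻¹ ^ 5) :=
    fun t => rfl
  refine ⟨?_, ?_, ?_⟩
  · simp only [ef]
    exact m1.const_mul _
  · simp only [ef]
    rw [integral_const_mul, m2]
  · have ha : 0 < ‖p.1 - z‖ := norm_pos_iff.2 (sub_ne_zero.2 h1)
    have hb : 0 < ‖p.2 - z‖ := norm_pos_iff.2 (sub_ne_zero.2 h2)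
    have hc : 0 < ‖p.1 - p.2‖ := norm_pos_iff.2 (sub_ne_zero.2 h3)
    have ef' : ∀ t : ℝ, ‖f2 z p t‖ =
        ‖‖p.1 - z‖⁻¹ ^ 8 * ‖p.2 - z‖⁻¹ ^ 8 * ⟪p.1 - z, p.2 - z⟫ ^ 3‖ *
          |mta 2 (p.1 - z) (p.2 - z) t * t⁻¹ ^ 5| := by
      intro t
      rw [ef, norm_mul, Real.norm_eq_abs (mta _ _ _ _ * _)]
    simp only [ef']
    rw [integral_const_mul]
    rw [sub_sub_sub_cancel_right] at m3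
    obtain ⟨k1, k2, k3⟩ := mono7 (u := ‖p.1 - z‖⁻¹) (v := ‖p.2 - z‖⁻¹) (w := ‖p.1 - p.2‖⁻¹)
      (by positivity) (by positivity) (by positivity)
    have e7 : S7 (z, p) = ‖p.1 - z‖⁻¹ ^ 7 * ‖p.2 - z‖⁻¹ ^ 7 +
        ‖p.1 - z‖⁻¹ ^ 7 * ‖p.1 - p.2‖⁻¹ ^ 7 + ‖p.2 - z‖⁻¹ ^ 7 * ‖p.1 - p.2‖⁻¹ ^ 7 := rfl
    have hW : ‖‖p.1 - z‖⁻¹ ^ 8 * ‖p.2 - z‖⁻¹ ^ 8 * ⟪p.1 - z, p.2 - z⟫ ^ 3‖ ≤
        ‖p.1 - z‖⁻¹ ^ 8 * ‖p.2 - z‖⁻¹ ^ 8 * (‖p.1 - z‖ * ‖p.2 - z‖) ^ 3 := by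
      rw [norm_mul, Real.norm_of_nonneg (by positivity), norm_pow]
      gcongr
      exact norm_inner_le_norm _ _
    calc _ ≤ ‖p.1 - z‖⁻¹ ^ 8 * ‖p.2 - z‖⁻¹ ^ 8 * (‖p.1 - z‖ * ‖p.2 - z‖) ^ 3 *
          (6 * ‖p.1 - p.2‖⁻¹ ^ 4 + 14 * (‖p.1 - z‖ * ‖p.2 - z‖) * ‖p.1 - p.2‖⁻¹ ^ 6) :=
          mul_le_mul hW m3 (integral_nonneg fun t => abs_nonneg _) (by positivity)
      _ = 6 * (‖p.1 - z‖⁻¹ ^ 5 * ‖p.2 - z‖⁻¹ ^ 5 * ‖p.1 - p.2‖⁻¹ ^ 4) +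
          14 * (‖p.1 - z‖⁻¹ ^ 4 * ‖p.2 - z‖⁻¹ ^ 4 * ‖p.1 - p.2‖⁻¹ ^ 6) := by
          field_simp
      _ ≤ 20 * S7 (z, p) := by
          rw [e7]
          linarith

private theorem EnB_gen {ν : Measure (X d)} (h : Nice7 ν) {f : X d → X d × X d → ℝ → ℝ} {K : ℝ}
    (hf : Measurable fun q : X d × ((X d × X d) × ℝ) => f q.1 q.2.1 q.2.2)
    (hs : ∀ (z : X d) (p : X d × X d), (p.1 ≠ z ∧ p.2 ≠ z ∧ p.1 ≠ p.2) →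
      IntegrableOn (fun t : ℝ => f z p t) (Ioi 0) ∧
        ∫ t in Ioi (0 : ℝ), ‖f z p t‖ ≤ K * S7 (z, p)) :
    Integrable (fun q : X d × ((X d × X d) × ℝ) => f q.1 q.2.1 q.2.2)
      (ν.prod ((ν.prod ν).prod (volume.restrict (Ioi 0)))) := by
  have := h.1
  refine ⟨hf.aestronglyMeasurable, ?_⟩
  have hae := Measure.ae_ae_of_ae_prod (ae7 h)
  have hS : Measurable (S7 (d := d)) := by
    unfold S7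
    fun_prop
  have h0 : ∫⁻ q : X d × ((X d × X d) × ℝ), ‖f q.1 q.2.1 q.2.2‖ₑ
      ∂(ν.prod ((ν.prod ν).prod (volume.restrict (Ioi 0)))) < ∞ := by
    rw [lintegral_prod _ hf.enorm.aemeasurable]
    calc _ ≤ ∫⁻ z, ∫⁻ p, ENNReal.ofReal (K * S7 (z, p)) ∂(ν.prod ν) ∂ν := by
          refine lintegral_mono_ae ?_
          filter_upwards [hae] with z hz
          have hm : Measurable fun r : (X d × X d) × ℝ => ‖f z r.1 r.2‖ₑ :=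
            (hf.comp (measurable_const.prodMk measurable_id)).enorm
          rw [lintegral_prod _ hm.aemeasurable]
          refine lintegral_mono_ae ?_
          filter_upwards [hz] with p hp
          obtain ⟨s1, s3⟩ := hs z p hp
          rw [← ofReal_integral_norm_eq_lintegral_enorm s1]
          exact ENNReal.ofReal_le_ofReal s3
      _ = ∫⁻ q : X d × (X d × X d), ENNReal.ofReal (K * S7 q) ∂(ν.prod (ν.prod ν)) := by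
          rw [lintegral_prod _ (hS.const_mul K).ennreal_ofReal.aemeasurable]
      _ < ∞ := ((S7_int h).const_mul K).lintegral_lt_top
  exact h0

theorem fint1 {ν : Measure (X d)} (h : Nice7 ν) :
    Integrable (fun q : X d × ((X d × X d) × ℝ) => f1 q.1 q.2.1 q.2.2)
      (ν.prod ((ν.prod ν).prod (volume.restrict (Ioi 0)))) := by
  refine EnB_gen h (K := 7) ?_ fun z p hp => ⟨(sl1 hp).1, (sl1 hp).2.2⟩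
  unfold f1 mta
  fun_prop

theorem fint2 {ν : Measure (X d)} (h : Nice7 ν) :
    Integrable (fun q : X d × ((X d × X d) × ℝ) => f2 q.1 q.2.1 q.2.2)
      (ν.prod ((ν.prod ν).prod (volume.restrict (Ioi 0)))) := by
  refine EnB_gen h (K := 20) ?_ fun z p hp => ⟨(sl2 hp).1, (sl2 hp).2.2⟩
  unfold f2 mta
  fun_prop

end Pool.Agent.H48.R7
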