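import Pool.Agent.H48.R7.EnB
import Pool.Agent.H48.R7.EnC
import Pool.Agent.H48.R7.Dbq

/-!
energy_seven.  Template: Pool/Agent/H1/LD/En2.lean, En2_main and energy_three.  By fint1, fint2 and
Fubini (integral_prod, integral_prod_symm as in En2_main), sl1, sl2, ae7:
∫ W7 = (1/3) ∫_z ∫_t ∬ f1 + (2/3) ∫_z ∫_t ∬ f2, the second term is ≥ 0 by f2_double, and
∫⁻_z ∫⁻_t Q7 ofReal t⁻¹ = ofReal (∫_z ∫_t ∬ f1) by Q7_double.  So it is ≤ ofReal (3 ∫ W7) = ofReal (3 ∫‖F7‖²)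
by W7_total.
-/

set_option autoImplicit false

open MeasureTheory Filter Topology Metric Set
open scoped RealInnerProductSpace ENNReal

namespace Pool.Agent.H48.R7

open Pool.Agent.RZ Pool.Agent.H1.LD

variable {d : ℕ}

private theorem EnD_part {ν : Measure (X d)} [IsFiniteMeasure ν] {f : X d → X d × X d → ℝ → ℝ}
    (hI : Integrable (fun q : X d × ((X d × X d) × ℝ) => f q.1 q.2.1 q.2.2)
      (ν.prod ((ν.prod ν).prod (volume.restrict (Ioi 0)))))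
    (hf : ∀ z t, 0 < t → 0 ≤ ∫ p, f z p t ∂(ν.prod ν)) :
    Integrable (fun z => ∫ r : (X d × X d) × ℝ, f z r.1 r.2 ∂((ν.prod ν).prod (volume.restrict (Ioi 0)))) ν ∧
    ∀ᵐ z ∂ν, (0 ≤ ∫ r : (X d × X d) × ℝ, f z r.1 r.2 ∂((ν.prod ν).prod (volume.restrict (Ioi 0)))) ∧
      (∫⁻ t in Ioi (0 : ℝ), ENNReal.ofReal (∫ p, f z p t ∂(ν.prod ν))) =
        ENNReal.ofReal (∫ r : (X d × X d) × ℝ, f z r.1 r.2 ∂((ν.prod ν).prod (volume.restrict (Ioi 0)))) ∧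
      Integrable (fun p => ∫ t in Ioi (0 : ℝ), f z p t) (ν.prod ν) ∧
      (∫ r : (X d × X d) × ℝ, f z r.1 r.2 ∂((ν.prod ν).prod (volume.restrict (Ioi 0)))) =
        ∫ p, (∫ t in Ioi (0 : ℝ), f z p t) ∂(ν.prod ν) := by
  refine ⟨hI.integral_prod_left, ?_⟩
  filter_upwards [hI.prod_right_ae] with z hz
  have e1 : (∫ r : (X d × X d) × ℝ, f z r.1 r.2 ∂((ν.prod ν).prod (volume.restrict (Ioi 0)))) =
      ∫ t in Ioi (0 : ℝ), ∫ p, f z p t ∂(ν.prod ν) := integral_prod_symm _ hz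
  have e2 : (∫ r : (X d × X d) × ℝ, f z r.1 r.2 ∂((ν.prod ν).prod (volume.restrict (Ioi 0)))) =
      ∫ p, (∫ t in Ioi (0 : ℝ), f z p t) ∂(ν.prod ν) := integral_prod _ hz
  have hnn : 0 ≤ᵐ[volume.restrict (Ioi (0 : ℝ))] fun t => ∫ p, f z p t ∂(ν.prod ν) := by
    filter_upwards [ae_restrict_mem measurableSet_Ioi] with t ht
    exact hf z t ht
  refine ⟨?_, ?_, hz.integral_prod_left, e2⟩
  · rw [e1]
    exact integral_nonneg_of_ae hnn
  · rw [e1, ofReal_integral_eq_lintegral_ofReal hz.integral_prod_right hnn]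

theorem energy_seven {ν : Measure (X d)} (h : Nice7 ν) :
    ∫⁻ z, (∫⁻ t in Ioi (0 : ℝ), Q7 ν z t * ENNReal.ofReal t⁻¹) ∂ν ≤
      ENNReal.ofReal (3 * ∫ z, ‖F7 ν z‖ ^ 2 ∂ν) := by
  have := h.1
  obtain ⟨a1, a2⟩ := EnD_part (fint1 h) fun z t ht => (Q7_double h z ht).2.1
  obtain ⟨b1, b2⟩ := EnD_part (fint2 h) fun z t ht => (f2_double h z ht).2
  obtain ⟨w1, w2⟩ := W7_total h
  have hae := Measure.ae_ae_of_ae_prod (ae7 h)
  set J1 : X d → ℝ := fun z => ∫ r : (X d × X d) × ℝ, f1 z r.1 r.2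
    ∂((ν.prod ν).prod (volume.restrict (Ioi 0))) with hJ1
  set J2 : X d → ℝ := fun z => ∫ r : (X d × X d) × ℝ, f2 z r.1 r.2
    ∂((ν.prod ν).prod (volume.restrict (Ioi 0))) with hJ2
  have key : ∀ᵐ z ∂ν, (∫ p : X d × X d, W7 (p.1 - z) (p.2 - z) ∂(ν.prod ν)) =
      (1 / 3) * J1 z + (2 / 3) * J2 z := by
    filter_upwards [a2, b2, hae] with z hz1 hz2 hp
    have e : (fun p : X d × X d => W7 (p.1 - z) (p.2 - z)) =ᵐ[ν.prod ν] fun p =>
        (1 / 3) * (∫ t in Ioi (0 : ℝ), f1 z p t) + (2 / 3) * (∫ t in Ioi (0 : ℝ), f2 z p t) := by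
      filter_upwards [hp] with p hp
      rw [(sl1 hp).2.1, (sl2 hp).2.1]
      rfl
    have e1 : J1 z = ∫ p, (∫ t in Ioi (0 : ℝ), f1 z p t) ∂(ν.prod ν) := hz1.2.2.2
    have e2 : J2 z = ∫ p, (∫ t in Ioi (0 : ℝ), f2 z p t) ∂(ν.prod ν) := hz2.2.2.2
    rw [integral_congr_ae e, integral_add (hz1.2.2.1.const_mul _) (hz2.2.2.1.const_mul _),
      integral_const_mul, integral_const_mul, e1, e2]
  have hW : ∫ z, ‖F7 ν z‖ ^ 2 ∂ν = (1 / 3) * (∫ z, J1 z ∂ν) + (2 / 3) * (∫ z, J2 z ∂ν) := by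
    rw [← w2, integral_prod _ w1]
    refine (integral_congr_ae key).trans ?_
    rw [integral_add (a1.const_mul _) (b1.const_mul _), integral_const_mul, integral_const_mul]
  have h2 : 0 ≤ ∫ z, J2 z ∂ν := integral_nonneg_of_ae (b2.mono fun z hz => hz.1)
  calc ∫⁻ z, (∫⁻ t in Ioi (0 : ℝ), Q7 ν z t * ENNReal.ofReal t⁻¹) ∂ν
      = ∫⁻ z, ENNReal.ofReal (J1 z) ∂ν := by
        refine lintegral_congr_ae ?_
        filter_upwards [a2] with z hz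
        refine Eq.trans ?_ hz.2.1
        refine setLIntegral_congr_fun measurableSet_Ioi fun t ht => ?_
        exact (Q7_double h z ht).2.2
    _ = ENNReal.ofReal (∫ z, J1 z ∂ν) :=
        (ofReal_integral_eq_lintegral_ofReal a1 (a2.mono fun z hz => hz.1)).symm
    _ ≤ _ := ENNReal.ofReal_le_ofReal (by rw [hW]; linarith)

end Pool.Agent.H48.R7
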