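import Pool.Agent.H48.R7.Thr
import Pool.Agent.H1.LD.Fin2

/-!
Assembly: n ≤ 7 by products with intervals.
-/

set_option autoImplicit false

open MeasureTheory Filter Topology Metric Set
open scoped RealInnerProductSpace ENNReal

namespace Pool.Agent.H48.R7

open Pool.Agent.RZ Pool.Agent.H1.LD

variable {d : ℕ}

theorem dich_low7 {n : ℕ} (hn : 1 ≤ n) (k : ℕ) (hk : n + k = 7) (hnd : n < d) {μ : Measure (X d)}
    [IsFiniteMeasure μ] {C₀ : ℝ} (hC₀ : 0 ≤ C₀) (hg : Gr n C₀ μ) (hE : En n μ) : Dich n μ := by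
  induction k generalizing n d C₀ with
  | zero =>
    obtain rfl : n = 7 := by omega
    exact dich_seven (by omega) hC₀ hg hE
  | succ k ih =>
    have hfin1 := prI_finite μ
    have h2 : (0 : ℝ) ≤ 2 * C₀ := by linarith
    have hg1 := prI_growth hC₀ hg
    have hE1 := prI_energy hn hC₀ hg hE
    exact prI_dich hC₀ hg (ih (n := n + 1) (by omega) (by omega) (by omega) h2 hg1 hE1)

theorem main_all7 {n : ℕ} (hn : 1 ≤ n) (hnd : n < d) (h3 : n ≤ 7 ∨ d ≤ n + 3) {E : Set (X d)}
    (hE : IsCompact E) (hfin : Measure.hausdorffMeasure (n : ℝ) E < ⊤) {B : NNReal}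
    (hb : Bdd n ((Measure.hausdorffMeasure (n : ℝ)).restrict E) B) :
    ∃ g : ℕ → X n → X d, (∀ i, ∃ K, LipschitzWith K (g i)) ∧
      Measure.hausdorffMeasure (n : ℝ) (E \ ⋃ i, Set.range (g i)) = 0 := by
  obtain ⟨g, hg1, hg2⟩ := Pool.Agent.RZ.main hn hnd.le hE hfin hb
  refine ⟨g, hg1, ?_⟩
  have hlow := low_of_dich hn hE hfin (fun G hG hGE C hC hgr => by
    have hGfin : Measure.hausdorffMeasure (n : ℝ) G < ⊤ := lt_of_le_of_lt (measure_mono hGE) hfin
    have hfm : IsFiniteMeasure ((Measure.hausdorffMeasure (n : ℝ) : Measure (X d)).restrict G) :=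
      ⟨by rwa [Measure.restrict_apply_univ]⟩
    have hb' : Bdd n ((Measure.hausdorffMeasure (n : ℝ)).restrict G) B := by
      have h1 := hb.restrict hG.measurableSet
      rwa [Measure.restrict_restrict hG.measurableSet, inter_eq_self_of_subset_left hGE] at h1
    have hnull : ((Measure.hausdorffMeasure (n : ℝ) : Measure (X d)).restrict G) Gᶜ = 0 := by
      rw [Measure.restrict_apply hG.measurableSet.compl, compl_inter_self, measure_empty]
    have hen := En_of_Bdd hn hG hnull hb' (by linarith) hgr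
    rcases h3 with h3 | h3
    · exact dich_low7 hn (7 - n) (by omega) hnd (by linarith) hgr hen
    · obtain ⟨A, hA⟩ := hG.isBounded.subset_closedBall (0 : X d)
      exact dich_codim hn h3 (measure_mono_null (compl_subset_compl.2 hA) hnull)
        (by linarith) hgr hen)
  refine measure_mono_null ?_ (measure_union_null hlow hg2)
  rintro x ⟨hx, hxg⟩
  by_cases hm : 0 < liminf (fun r : ℝ =>
      Measure.hausdorffMeasure (n : ℝ) (E ∩ closedBall x r) / ENNReal.ofReal (r ^ n)) (𝓝[>] 0)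
  · exact Or.inr ⟨⟨hx, hm⟩, hxg⟩
  · exact Or.inl ⟨hx, fun h => hm h.2⟩

end Pool.Agent.H48.R7
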