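import Pool.Agent.H48.R7.MolA

/-!
Template: Pool/Agent/H1/LD/MolC.lean (avg_ker).  Kernel ‖x‖⁻¹^8 • x, kr 7 ε a = (‖a‖²+ε²)⁻¹^4.
Near case ‖a‖ < 4ε: both terms are ≤ ε⁻⁷ (C₁+1), and ε⁻⁷ ≤ 17⁴ ε kr 7 ε a.  Far case ‖a‖ ≥ 4ε: the
kernel is Lipschitz on segments far from 0 (difference ≤ C‖a‖⁻⁸ 2ε) and |‖a‖⁻⁸ - kr 7 ε a| ‖a‖ ≤ C ε ‖a‖⁻⁸,
‖a‖⁻⁸ ≤ 2 kr 7 ε a.
-/

set_option autoImplicit false

open MeasureTheory Filter Topology Metric Set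
open scoped RealInnerProductSpace ENNReal

namespace Pool.Agent.H48.R7

open Pool.Agent.RZ Pool.Agent.H1.LD

variable {d : ℕ}

/-- the kernel -/
private noncomputable def MolC_K (x : X d) : X d := ‖x‖⁻¹ ^ 8 • x

private lemma MolC_K_meas : Measurable (MolC_K (d := d)) := by
  unfold MolC_K
  exact ((measurable_norm.inv).pow_const 8).smul measurable_id

private lemma MolC_K_norm (x : X d) : ‖MolC_K x‖ = ‖x‖⁻¹ ^ 7 := by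
  unfold MolC_K
  rw [norm_smul, norm_pow, norm_inv, norm_norm]
  rcases eq_or_ne ‖x‖ 0 with h | h
  · rw [h]; simp
  · field_simp

private lemma MolC_K_enorm (x : X d) : ‖MolC_K x‖ₑ ≤ ‖x‖ₑ⁻¹ ^ 7 := by
  rcases eq_or_ne x 0 with h | h
  · subst h; simp
  · have h0 : 0 < ‖x‖ := norm_pos_iff.2 h
    rw [← ofReal_norm, MolC_K_norm, ← ofReal_norm,
      ← ENNReal.ofReal_inv_of_pos h0, ENNReal.ofReal_pow (inv_nonneg.2 h0.le)]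

private lemma MolC_kr (ε : ℝ) (a : X d) : kr 7 ε a = (‖a‖ ^ 2 + ε ^ 2)⁻¹ ^ 4 := by
  unfold kr
  have h : (0 : ℝ) ≤ ‖a‖ ^ 2 + ε ^ 2 := by positivity
  rw [show (7 + 1) = 2 * 4 by norm_num, pow_mul, inv_pow, Real.sq_sqrt h]

/-- the difference of kernels -/
private lemma MolC_diff {x y : X d} (hy : 0 < ‖y‖) (h1 : ‖y‖ / 2 ≤ ‖x‖) (h2 : ‖x‖ ≤ 3 / 2 * ‖y‖) :
    ‖MolC_K x - MolC_K y‖ ≤ 13056 * ‖y‖⁻¹ ^ 8 * ‖x - y‖ := by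
  have hx : 0 < ‖x‖ := by linarith [half_pos hy]
  have e : MolC_K x - MolC_K y = ‖x‖⁻¹ ^ 8 • (x - y) + (‖x‖⁻¹ ^ 8 - ‖y‖⁻¹ ^ 8) • y := by
    unfold MolC_K
    rw [smul_sub, sub_smul]; abel
  have hi : ‖x‖⁻¹ ≤ 2 * ‖y‖⁻¹ := by
    have := inv_anti₀ (half_pos hy) h1
    rwa [inv_div, div_eq_mul_inv] at this
  have hi4 : ‖x‖⁻¹ ^ 8 ≤ 256 * ‖y‖⁻¹ ^ 8 := by
    calc ‖x‖⁻¹ ^ 8 ≤ (2 * ‖y‖⁻¹) ^ 8 := pow_le_pow_left₀ (by positivity) hi 8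
      _ = 256 * ‖y‖⁻¹ ^ 8 := by ring
  have hab : |‖y‖ - ‖x‖| ≤ ‖x - y‖ := by
    rw [abs_sub_comm]; exact abs_norm_sub_norm_le x y
  have e2 : ‖x‖⁻¹ ^ 8 - ‖y‖⁻¹ ^ 8 =
      (‖x‖⁻¹ ^ 8 * ‖y‖⁻¹ ^ 8) *
        ((‖y‖ - ‖x‖) * ((‖y‖ + ‖x‖) * (‖y‖ ^ 2 + ‖x‖ ^ 2) * (‖y‖ ^ 4 + ‖x‖ ^ 4))) := by
    field_simp
    ring
  have h3 : |‖x‖⁻¹ ^ 8 - ‖y‖⁻¹ ^ 8| ≤ 12800 * ‖y‖⁻¹ ^ 8 * ‖y‖⁻¹ * ‖x - y‖ := by
    rw [e2, abs_mul (‖x‖⁻¹ ^ 8 * ‖y‖⁻¹ ^ 8), abs_mul (‖y‖ - ‖x‖),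
      abs_of_nonneg (by positivity : 0 ≤ ‖x‖⁻¹ ^ 8 * ‖y‖⁻¹ ^ 8),
      abs_of_nonneg (by positivity :
        0 ≤ (‖y‖ + ‖x‖) * (‖y‖ ^ 2 + ‖x‖ ^ 2) * (‖y‖ ^ 4 + ‖x‖ ^ 4))]
    have h4 : (‖y‖ + ‖x‖) * (‖y‖ ^ 2 + ‖x‖ ^ 2) * (‖y‖ ^ 4 + ‖x‖ ^ 4) ≤ 50 * ‖y‖ ^ 7 := by
      have a1 : ‖y‖ + ‖x‖ ≤ 5 / 2 * ‖y‖ := by linarith
      have a2 : ‖x‖ ^ 2 ≤ (3 / 2 * ‖y‖) ^ 2 := pow_le_pow_left₀ hx.le h2 2
      have a3 : ‖y‖ ^ 2 + ‖x‖ ^ 2 ≤ 13 / 4 * ‖y‖ ^ 2 := by nlinarith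
      have a4 : ‖x‖ ^ 4 ≤ (3 / 2 * ‖y‖) ^ 4 := pow_le_pow_left₀ hx.le h2 4
      have a5 : ‖y‖ ^ 4 + ‖x‖ ^ 4 ≤ 97 / 16 * ‖y‖ ^ 4 := by
        have a6 : (3 / 2 * ‖y‖) ^ 4 = 81 / 16 * ‖y‖ ^ 4 := by ring
        rw [a6] at a4
        linarith
      calc (‖y‖ + ‖x‖) * (‖y‖ ^ 2 + ‖x‖ ^ 2) * (‖y‖ ^ 4 + ‖x‖ ^ 4)
          ≤ (5 / 2 * ‖y‖) * (13 / 4 * ‖y‖ ^ 2) * (97 / 16 * ‖y‖ ^ 4) :=
            mul_le_mul (mul_le_mul a1 a3 (by positivity) (by positivity)) a5 (by positivity)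
              (by positivity)
        _ = 6305 / 128 * ‖y‖ ^ 7 := by ring
        _ ≤ 50 * ‖y‖ ^ 7 := by
            have := pow_pos hy 7
            linarith
    calc ‖x‖⁻¹ ^ 8 * ‖y‖⁻¹ ^ 8 *
          (|‖y‖ - ‖x‖| * ((‖y‖ + ‖x‖) * (‖y‖ ^ 2 + ‖x‖ ^ 2) * (‖y‖ ^ 4 + ‖x‖ ^ 4)))
        ≤ (256 * ‖y‖⁻¹ ^ 8) * ‖y‖⁻¹ ^ 8 * (‖x - y‖ * (50 * ‖y‖ ^ 7)) := by
          gcongr
      _ = 12800 * ‖y‖⁻¹ ^ 8 * ‖y‖⁻¹ * ‖x - y‖ := by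
          field_simp
          ring
  rw [e]
  calc ‖‖x‖⁻¹ ^ 8 • (x - y) + (‖x‖⁻¹ ^ 8 - ‖y‖⁻¹ ^ 8) • y‖
      ≤ ‖x‖⁻¹ ^ 8 * ‖x - y‖ + |‖x‖⁻¹ ^ 8 - ‖y‖⁻¹ ^ 8| * ‖y‖ := by
        refine (norm_add_le _ _).trans (add_le_add ?_ ?_)
        · rw [norm_smul, norm_pow, norm_inv, norm_norm]
        · rw [norm_smul, Real.norm_eq_abs]
    _ ≤ (256 * ‖y‖⁻¹ ^ 8) * ‖x - y‖ + (12800 * ‖y‖⁻¹ ^ 8 * ‖y‖⁻¹ * ‖x - y‖) * ‖y‖ := by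
        gcongr
    _ = 13056 * ‖y‖⁻¹ ^ 8 * ‖x - y‖ := by
        field_simp
        ring

private lemma MolC_ball : ∀ᵐ w ∂(Pb d), w ∈ closedBall (0 : X d) 1 := by
  unfold Pb
  exact Measure.ae_smul_measure (ae_restrict_mem measurableSet_closedBall) _

theorem avg_ker7 (hd : 8 ≤ d) : ∃ C : ℝ, 0 < C ∧ ∀ (ε : ℝ), 0 < ε → ∀ a : X d,
    ∀ w ∈ closedBall (0 : X d) 1,
    ‖(∫ w', ‖a + ε • (w - w')‖⁻¹ ^ 8 • (a + ε • (w - w')) ∂(Pb d)) - kr 7 ε a • a‖ ≤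
      C * (ε * kr 7 ε a) := by
  obtain ⟨C₁, hC₁, hloc⟩ := avg_loc7 (d := d) hd
  have := Pb_prob d
  refine ⟨83521 * (C₁ + 1) + 60000, by positivity, fun ε hε a w hw => ?_⟩
  have hkr : kr 7 ε a = (‖a‖ ^ 2 + ε ^ 2)⁻¹ ^ 4 := MolC_kr ε a
  have hw1 : ‖w‖ ≤ 1 := by simpa using hw
  have hk0 : 0 < kr 7 ε a := by rw [hkr]; positivity
  change ‖(∫ w', MolC_K (a + ε • (w - w')) ∂(Pb d)) - kr 7 ε a • a‖ ≤ _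
  rcases lt_or_ge ‖a‖ (4 * ε) with hn | hf
  · -- near case
    have n1 : ‖∫ w', MolC_K (a + ε • (w - w')) ∂(Pb d)‖ ≤ ε⁻¹ ^ 7 * C₁ := by
      have l1 : ∫⁻ w', ‖MolC_K (a + ε • (w - w'))‖ₑ ∂(Pb d) ≤ ENNReal.ofReal (ε⁻¹ ^ 7 * C₁) := by
        calc ∫⁻ w', ‖MolC_K (a + ε • (w - w'))‖ₑ ∂(Pb d)
            ≤ ∫⁻ w', ENNReal.ofReal (ε⁻¹ ^ 7) * ‖-(ε⁻¹ • a + w) + w'‖ₑ⁻¹ ^ 7 ∂(Pb d) := by
              refine lintegral_mono fun w' => (MolC_K_enorm _).trans (le_of_eq ?_)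
              have : a + ε • (w - w') = ε • (-(-(ε⁻¹ • a + w) + w')) := by
                rw [neg_add, neg_neg, smul_add, smul_add, smul_sub, smul_neg, smul_smul,
                  mul_inv_cancel₀ hε.ne', one_smul]
                abel
              rw [this, enorm_smul, enorm_neg, Real.enorm_eq_ofReal hε.le,
                ENNReal.mul_inv (Or.inl (by simpa using hε)) (Or.inl ENNReal.ofReal_ne_top),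
                mul_pow, ← ENNReal.ofReal_inv_of_pos hε,
                ← ENNReal.ofReal_pow (inv_nonneg.2 hε.le)]
          _ = ENNReal.ofReal (ε⁻¹ ^ 7) * ∫⁻ w', ‖-(ε⁻¹ • a + w) + w'‖ₑ⁻¹ ^ 7 ∂(Pb d) :=
              lintegral_const_mul' _ _ ENNReal.ofReal_ne_top
          _ ≤ ENNReal.ofReal (ε⁻¹ ^ 7) * ENNReal.ofReal C₁ := by gcongr; exact hloc _
          _ = ENNReal.ofReal (ε⁻¹ ^ 7 * C₁) := (ENNReal.ofReal_mul (by positivity)).symm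
      have l2 := (enorm_integral_le_lintegral_enorm
        (fun w' => MolC_K (a + ε • (w - w'))) (μ := Pb d)).trans l1
      rw [← ofReal_norm] at l2
      exact (ENNReal.ofReal_le_ofReal_iff (by positivity)).1 l2
    have n2 : ‖kr 7 ε a • a‖ ≤ ε⁻¹ ^ 7 := by
      rw [norm_smul, Real.norm_eq_abs, abs_of_pos hk0, hkr, inv_pow, inv_pow]
      rw [inv_mul_le_iff₀ (by positivity), ← div_eq_mul_inv, le_div_iff₀ (by positivity)]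
      have b1 : ‖a‖ * ε ≤ ‖a‖ ^ 2 + ε ^ 2 := by
        nlinarith [sq_nonneg (‖a‖ - ε), sq_nonneg ‖a‖, sq_nonneg ε]
      have b2 : ε ^ 2 ≤ ‖a‖ ^ 2 + ε ^ 2 := by nlinarith [sq_nonneg ‖a‖]
      calc ‖a‖ * ε ^ 7 = (‖a‖ * ε) * (ε ^ 2) ^ 3 := by ring
        _ ≤ (‖a‖ ^ 2 + ε ^ 2) * (‖a‖ ^ 2 + ε ^ 2) ^ 3 := by gcongr
        _ = (‖a‖ ^ 2 + ε ^ 2) ^ 4 := by ring
    have n3 : ε⁻¹ ^ 7 ≤ 83521 * (ε * kr 7 ε a) := by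
      rw [hkr, inv_pow, inv_pow]
      rw [inv_le_iff_one_le_mul₀ (by positivity)]
      have h1 : ‖a‖ ^ 2 + ε ^ 2 ≤ 17 * ε ^ 2 := by
        have := pow_le_pow_left₀ (norm_nonneg a) hn.le 2
        nlinarith
      have h2 : (‖a‖ ^ 2 + ε ^ 2) ^ 4 ≤ (17 * ε ^ 2) ^ 4 := pow_le_pow_left₀ (by positivity) h1 4
      have h3 : 1 ≤ 83521 * ε ^ 8 * ((‖a‖ ^ 2 + ε ^ 2) ^ 4)⁻¹ := by
        rw [← div_eq_mul_inv, le_div_iff₀ (by positivity)]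
        calc 1 * (‖a‖ ^ 2 + ε ^ 2) ^ 4 ≤ (17 * ε ^ 2) ^ 4 := by rw [one_mul]; exact h2
          _ = 83521 * ε ^ 8 := by ring
      calc (1 : ℝ) ≤ 83521 * ε ^ 8 * ((‖a‖ ^ 2 + ε ^ 2) ^ 4)⁻¹ := h3
        _ = 83521 * (ε * ((‖a‖ ^ 2 + ε ^ 2) ^ 4)⁻¹) * ε ^ 7 := by ring
    calc ‖(∫ w', MolC_K (a + ε • (w - w')) ∂(Pb d)) - kr 7 ε a • a‖
        ≤ ε⁻¹ ^ 7 * C₁ + ε⁻¹ ^ 7 := (norm_sub_le _ _).trans (add_le_add n1 n2)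
      _ = (C₁ + 1) * ε⁻¹ ^ 7 := by ring
      _ ≤ (C₁ + 1) * (83521 * (ε * kr 7 ε a)) := by gcongr
      _ ≤ (83521 * (C₁ + 1) + 60000) * (ε * kr 7 ε a) := by nlinarith [mul_pos hε hk0]
  · -- far case
    have ha : 0 < ‖a‖ := by linarith
    have hb : ∀ w' ∈ closedBall (0 : X d) 1, ‖ε • (w - w')‖ ≤ 2 * ε := by
      intro w' hw'
      have hw2 : ‖w'‖ ≤ 1 := by simpa using hw'
      rw [norm_smul, Real.norm_eq_abs, abs_of_pos hε]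
      nlinarith [norm_sub_le w w']
    have hd1 : ∀ w' ∈ closedBall (0 : X d) 1,
        ‖MolC_K (a + ε • (w - w')) - MolC_K a‖ ≤ 26112 * ε * ‖a‖⁻¹ ^ 8 := by
      intro w' hw'
      have hb1 := hb w' hw'
      have t1 : ‖a‖ - ‖ε • (w - w')‖ ≤ ‖a + ε • (w - w')‖ := by
        have := norm_sub_norm_le a (-(ε • (w - w')))
        rwa [norm_neg, sub_neg_eq_add] at this
      have t2 : ‖a + ε • (w - w')‖ ≤ ‖a‖ + ‖ε • (w - w')‖ := norm_add_le _ _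
      refine (MolC_diff ha (by linarith) (by linarith)).trans ?_
      rw [add_sub_cancel_left]
      calc 13056 * ‖a‖⁻¹ ^ 8 * ‖ε • (w - w')‖ ≤ 13056 * ‖a‖⁻¹ ^ 8 * (2 * ε) := by gcongr
        _ = 26112 * ε * ‖a‖⁻¹ ^ 8 := by ring
    have hint : Integrable (fun w' => MolC_K (a + ε • (w - w')) - MolC_K a) (Pb d) := by
      refine Integrable.of_bound (C := 26112 * ε * ‖a‖⁻¹ ^ 8) ?_ ?_
      · refine ((MolC_K_meas.comp ?_).sub_const _).aestronglyMeasurable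
        fun_prop
      · filter_upwards [MolC_ball] with w' hw' using hd1 w' hw'
    have hint2 : Integrable (fun w' => MolC_K (a + ε • (w - w'))) (Pb d) := by
      have := hint.add (integrable_const (MolC_K a))
      refine this.congr (Eventually.of_forall fun w' => ?_)
      simp
    have f1 : ‖(∫ w', MolC_K (a + ε • (w - w')) ∂(Pb d)) - MolC_K a‖ ≤
        26112 * ε * ‖a‖⁻¹ ^ 8 := by
      have e1 : (∫ w', MolC_K (a + ε • (w - w')) ∂(Pb d)) - MolC_K a =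
          ∫ w', (MolC_K (a + ε • (w - w')) - MolC_K a) ∂(Pb d) := by
        rw [integral_sub hint2 (integrable_const _), integral_const]
        simp
      rw [e1]
      have := norm_integral_le_of_norm_le_const (μ := Pb d)
        (f := fun w' => MolC_K (a + ε • (w - w')) - MolC_K a) (C := 26112 * ε * ‖a‖⁻¹ ^ 8)
        (by filter_upwards [MolC_ball] with w' hw' using hd1 w' hw')
      simpa using this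
    have hAE : 16 * ε ^ 2 ≤ ‖a‖ ^ 2 := by
      have := pow_le_pow_left₀ (by positivity) hf 2
      nlinarith
    have hk1 : kr 7 ε a ≤ ‖a‖⁻¹ ^ 8 := by
      rw [hkr, inv_pow, inv_pow]
      refine inv_anti₀ (by positivity) ?_
      calc ‖a‖ ^ 8 = (‖a‖ ^ 2) ^ 4 := by ring
        _ ≤ (‖a‖ ^ 2 + ε ^ 2) ^ 4 := by
            gcongr
            exact le_add_of_nonneg_right (sq_nonneg ε)
    have hk2 : ‖a‖⁻¹ ^ 8 ≤ 2 * kr 7 ε a := by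
      rw [hkr, inv_pow, inv_pow, ← div_eq_mul_inv, inv_eq_one_div,
        div_le_div_iff₀ (by positivity) (by positivity)]
      have h2 : ‖a‖ ^ 2 + ε ^ 2 ≤ 17 / 16 * ‖a‖ ^ 2 := by linarith
      have h3 := pow_le_pow_left₀ (by positivity) h2 4
      have h4 : (17 / 16 * ‖a‖ ^ 2) ^ 4 = 83521 / 65536 * ‖a‖ ^ 8 := by ring
      rw [h4] at h3
      have h5 := pow_pos ha 8
      linarith
    have f2 : ‖MolC_K a - kr 7 ε a • a‖ ≤ 2 * ε * ‖a‖⁻¹ ^ 8 := by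
      unfold MolC_K
      rw [← sub_smul, norm_smul, Real.norm_eq_abs, abs_of_nonneg (by linarith), hkr]
      have e : ‖a‖⁻¹ ^ 8 - (‖a‖ ^ 2 + ε ^ 2)⁻¹ ^ 4 =
          (ε ^ 2 * (4 * ‖a‖ ^ 6 + 6 * ‖a‖ ^ 4 * ε ^ 2 + 4 * ‖a‖ ^ 2 * ε ^ 4 + ε ^ 6)) *
            (‖a‖⁻¹ ^ 8 * (‖a‖ ^ 2 + ε ^ 2)⁻¹ ^ 4) := by
        field_simp
        ring
      rw [e]
      have h5 : (‖a‖ ^ 2 + ε ^ 2)⁻¹ ^ 4 ≤ ‖a‖⁻¹ ^ 8 := by rw [← hkr]; exact hk1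
      have h8 : 4 * ‖a‖ ^ 6 + 6 * ‖a‖ ^ 4 * ε ^ 2 + 4 * ‖a‖ ^ 2 * ε ^ 4 + ε ^ 6 ≤
          5 * ‖a‖ ^ 6 := by
        have q1 : ε ^ 2 ≤ ‖a‖ ^ 2 / 16 := by linarith
        have q2 : (ε ^ 2) ^ 2 ≤ (‖a‖ ^ 2 / 16) ^ 2 := pow_le_pow_left₀ (sq_nonneg ε) q1 2
        have q3 : (ε ^ 2) ^ 3 ≤ (‖a‖ ^ 2 / 16) ^ 3 := pow_le_pow_left₀ (sq_nonneg ε) q1 3
        have r1 : ‖a‖ ^ 4 * ε ^ 2 ≤ ‖a‖ ^ 4 * (‖a‖ ^ 2 / 16) := by gcongr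
        have r2 : ‖a‖ ^ 2 * ε ^ 4 ≤ ‖a‖ ^ 2 * (‖a‖ ^ 2 / 16) ^ 2 := by
          have : ε ^ 4 = (ε ^ 2) ^ 2 := by ring
          rw [this]; gcongr
        have r3 : ε ^ 6 ≤ (‖a‖ ^ 2 / 16) ^ 3 := by
          have : ε ^ 6 = (ε ^ 2) ^ 3 := by ring
          rw [this]; exact q3
        have r4 : ‖a‖ ^ 4 * (‖a‖ ^ 2 / 16) = ‖a‖ ^ 6 / 16 := by ring
        have r5 : ‖a‖ ^ 2 * (‖a‖ ^ 2 / 16) ^ 2 = ‖a‖ ^ 6 / 256 := by ring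
        have r6 : (‖a‖ ^ 2 / 16) ^ 3 = ‖a‖ ^ 6 / 4096 := by ring
        rw [r4] at r1
        rw [r5] at r2
        rw [r6] at r3
        have r7 := pow_pos ha 6
        linarith
      have h6 : ε ^ 2 * (5 * ‖a‖ ^ 6) * ‖a‖⁻¹ ^ 8 * ‖a‖ ≤ 2 * ε := by
        have e6 : ε ^ 2 * (5 * ‖a‖ ^ 6) * ‖a‖⁻¹ ^ 8 * ‖a‖ = 5 * ε * (ε * ‖a‖⁻¹) := by
          field_simp
        rw [e6]
        have h7 : ε * ‖a‖⁻¹ ≤ 1 / 4 := by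
          rw [← div_eq_mul_inv, div_le_iff₀ ha]
          linarith
        nlinarith
      calc ε ^ 2 * (4 * ‖a‖ ^ 6 + 6 * ‖a‖ ^ 4 * ε ^ 2 + 4 * ‖a‖ ^ 2 * ε ^ 4 + ε ^ 6) *
            (‖a‖⁻¹ ^ 8 * (‖a‖ ^ 2 + ε ^ 2)⁻¹ ^ 4) * ‖a‖
          ≤ ε ^ 2 * (5 * ‖a‖ ^ 6) * (‖a‖⁻¹ ^ 8 * ‖a‖⁻¹ ^ 8) * ‖a‖ := by gcongr
        _ = (ε ^ 2 * (5 * ‖a‖ ^ 6) * ‖a‖⁻¹ ^ 8 * ‖a‖) * ‖a‖⁻¹ ^ 8 := by ring
        _ ≤ 2 * ε * ‖a‖⁻¹ ^ 8 := by gcongr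
    calc ‖(∫ w', MolC_K (a + ε • (w - w')) ∂(Pb d)) - kr 7 ε a • a‖
        ≤ 26112 * ε * ‖a‖⁻¹ ^ 8 + 2 * ε * ‖a‖⁻¹ ^ 8 := by
          have := norm_add_le ((∫ w', MolC_K (a + ε • (w - w')) ∂(Pb d)) - MolC_K a)
            (MolC_K a - kr 7 ε a • a)
          rw [sub_add_sub_cancel] at this
          exact this.trans (add_le_add f1 f2)
      _ = 26114 * ε * ‖a‖⁻¹ ^ 8 := by ring
      _ ≤ 26114 * ε * (2 * kr 7 ε a) := by gcongr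
      _ ≤ (83521 * (C₁ + 1) + 60000) * (ε * kr 7 ε a) := by nlinarith [mul_pos hε hk0]

end Pool.Agent.H48.R7
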