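import Pool.Agent.H48.R7.Defs

/-!
gauss_pair7.  Template: Pool/Agent/H1/LD/En1A.lean (gauss_pair; the private lemmas en1A_gc, en1A_int
must be copied).  a = x - z, b = x' - z, β = 2/s².  Y = z + (a+b)/2 + w: x - Y = h - w,
x' - Y = -h - w, h = (a-b)/2; the product of the Gaussians is exp(-|a-b|²/s²) ga (4/s²) w.
(α - 2β⟪a,h-w⟫)(α - 2β⟪b,-h-w⟫) = (α - 2β⟪a,h⟫ + 2β⟪a,w⟫)(α + 2β⟪b,h⟫ + 2β⟪b,w⟫); the integral against
ga (4/s²) is gc (4/s²) [(α - 2β⟪a,h⟫)(α + 2β⟪b,h⟫) + 4β² (s²/8) ⟪a,b⟫] (ga_odd, ga_second), with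
2β⟪a,h⟫ = 2⟪a,a-b⟫/s², 2β⟪b,h⟫ = -2⟪b,b-a⟫/s²: this is
gc (4/s²) [α² - 2α(⟪a,a-b⟫+⟪b,b-a⟫)/s² + 4⟪a,a-b⟫⟪b,b-a⟫/s⁴ + 2⟪a,b⟫/s²] and
⟪a,a-b⟫ + ⟪b,b-a⟫ = ‖a-b‖²; gc d (4/s²) = s^d gc d 4.
-/

set_option autoImplicit false

open MeasureTheory Filter Topology Metric Set
open scoped RealInnerProductSpace ENNReal

namespace Pool.Agent.H48.R7

open Pool.Agent.RZ Pool.Agent.H1.LD

variable {d : ℕ}

private theorem pair7_gc {s : ℝ} (hs : 0 < s) : gc d (4 / s ^ 2) = s ^ d * gc d 4 := by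
  have h := MeasureTheory.Measure.integral_comp_smul (volume : Measure (X d)) (fun w : X d => ga 4 w) s⁻¹
  have h1 : (fun w : X d => ga 4 (s⁻¹ • w)) = fun w : X d => ga (4 / s ^ 2) w := by
    funext w
    unfold ga
    congr 1
    rw [norm_smul, norm_inv, Real.norm_eq_abs, abs_of_pos hs]
    field_simp
  rw [h1] at h
  unfold gc
  rw [h]
  rw [finrank_euclideanSpace, Fintype.card_fin, inv_pow, inv_inv, abs_of_pos (pow_pos hs d), smul_eq_mul]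

private theorem pair7_int {B : ℝ} (hB : 0 < B) (f : X d → ℝ) (hf : Continuous f) (C : ℝ) (m : ℕ)
    (hC : ∀ w, |f w| ≤ C * (1 + ‖w‖) ^ m) : Integrable (fun w : X d => ga B w * f w) := by
  refine ((ga_integrable hB m).const_mul C).mono' ((ga_continuous B).mul hf).aestronglyMeasurable ?_
  refine Filter.Eventually.of_forall fun w => ?_
  rw [Real.norm_eq_abs, abs_mul, abs_of_nonneg (ga_nonneg B w)]
  have h1 := mul_le_mul_of_nonneg_left (hC w) (ga_nonneg B w)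
  calc ga B w * |f w| ≤ ga B w * (C * (1 + ‖w‖) ^ m) := h1
    _ = C * ((1 + ‖w‖) ^ m * ga B w) := by ring

private theorem pair7_aux {s : ℝ} (hs : 0 < s) (α : ℝ) (a b : X d) (z : X d) :
    ∫ Y : X d, ((α - 2 * (2 / s ^ 2) * ⟪a, z + a - Y⟫) * ga (2 / s ^ 2) (z + a - Y)) *
      ((α - 2 * (2 / s ^ 2) * ⟪b, z + b - Y⟫) * ga (2 / s ^ 2) (z + b - Y)) =
      s ^ d * gc d 4 * mta α a b s := by
  have hB : 0 < 4 / s ^ 2 := by positivity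
  obtain ⟨h, hh⟩ : ∃ h : X d, h = (1 / 2 : ℝ) • (a - b) := ⟨_, rfl⟩
  have htr := integral_add_left_eq_self (μ := (volume : Measure (X d)))
    (fun Y : X d => ((α - 2 * (2 / s ^ 2) * ⟪a, z + a - Y⟫) * ga (2 / s ^ 2) (z + a - Y)) *
      ((α - 2 * (2 / s ^ 2) * ⟪b, z + b - Y⟫) * ga (2 / s ^ 2) (z + b - Y)))
    (z + (1 / 2 : ℝ) • (a + b))
  rw [← htr]
  have e1 : ∀ w : X d, z + a - (z + (1 / 2 : ℝ) • (a + b) + w) = h - w := by
    intro w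
    rw [hh]
    module
  have e2 : ∀ w : X d, z + b - (z + (1 / 2 : ℝ) • (a + b) + w) = -h - w := by
    intro w
    rw [hh]
    module
  have hnorm : ∀ w : X d, ‖h - w‖ ^ 2 + ‖-h - w‖ ^ 2 = ‖a - b‖ ^ 2 / 2 + 2 * ‖w‖ ^ 2 := by
    intro w
    have h1 : ‖-h - w‖ = ‖h + w‖ := by
      rw [← norm_neg]
      congr 1
      abel
    have h2 : ‖h‖ ^ 2 = ‖a - b‖ ^ 2 / 4 := by
      rw [hh, norm_smul, mul_pow]
      norm_num
      ring
    rw [h1, @norm_sub_sq_real, @norm_add_sq_real, h2]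
    ring
  have hga : ∀ w : X d, ga (2 / s ^ 2) (h - w) * ga (2 / s ^ 2) (-h - w) =
      Real.exp (-(‖a - b‖ ^ 2 / s ^ 2)) * ga (4 / s ^ 2) w := by
    intro w
    unfold ga
    rw [← Real.exp_add, ← Real.exp_add]
    congr 1
    have h1 : -(2 / s ^ 2 * ‖h - w‖ ^ 2) + -(2 / s ^ 2 * ‖-h - w‖ ^ 2) =
        -(2 / s ^ 2 * (‖h - w‖ ^ 2 + ‖-h - w‖ ^ 2)) := by ring
    rw [h1, hnorm w]
    field_simp
    ring
  obtain ⟨p, hp⟩ : ∃ p : ℝ, p = α - 2 * (2 / s ^ 2) * ⟪a, h⟫ := ⟨_, rfl⟩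
  obtain ⟨q, hq⟩ : ∃ q : ℝ, q = α + 2 * (2 / s ^ 2) * ⟪b, h⟫ := ⟨_, rfl⟩
  obtain ⟨c, hc⟩ : ∃ c : ℝ, c = 2 * (2 / s ^ 2) := ⟨_, rfl⟩
  have hF : ∀ w : X d, ((α - 2 * (2 / s ^ 2) * ⟪a, z + a - (z + (1 / 2 : ℝ) • (a + b) + w)⟫) *
        ga (2 / s ^ 2) (z + a - (z + (1 / 2 : ℝ) • (a + b) + w))) *
      ((α - 2 * (2 / s ^ 2) * ⟪b, z + b - (z + (1 / 2 : ℝ) • (a + b) + w)⟫) *
        ga (2 / s ^ 2) (z + b - (z + (1 / 2 : ℝ) • (a + b) + w))) =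
      Real.exp (-(‖a - b‖ ^ 2 / s ^ 2)) *
        (p * q * ga (4 / s ^ 2) w + (p * c) * (ga (4 / s ^ 2) w * ⟪w, b⟫) +
          (q * c) * (ga (4 / s ^ 2) w * ⟪w, a⟫) +
          c ^ 2 * (ga (4 / s ^ 2) w * (⟪w, a⟫ * ⟪w, b⟫))) := by
    intro w
    rw [e1, e2, ← hc]
    rw [← hc] at hp hq
    have h1 : ((α - c * ⟪a, h - w⟫) * ga (2 / s ^ 2) (h - w)) *
        ((α - c * ⟪b, -h - w⟫) * ga (2 / s ^ 2) (-h - w)) =
        ((α - c * ⟪a, h - w⟫) * (α - c * ⟪b, -h - w⟫)) *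
          (ga (2 / s ^ 2) (h - w) * ga (2 / s ^ 2) (-h - w)) := by
      ring
    rw [h1, hga w, inner_sub_right, inner_sub_right, inner_neg_right, real_inner_comm w a,
      real_inner_comm w b, hp, hq]
    ring
  simp only [hF]
  rw [integral_const_mul]
  have hi0 : Integrable (fun w : X d => ga (4 / s ^ 2) w) := by
    have := ga_integrable (d := d) hB 0
    simpa using this
  have hi1 : ∀ c : X d, Integrable (fun w : X d => ga (4 / s ^ 2) w * ⟪w, c⟫) := by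
    intro c
    refine pair7_int hB (fun w => ⟪w, c⟫) (by fun_prop) ‖c‖ 1 fun w => ?_
    have h1 := abs_real_inner_le_norm w c
    have h2 := norm_nonneg w
    have h3 := norm_nonneg c
    nlinarith
  have hi2 : Integrable (fun w : X d => ga (4 / s ^ 2) w * (⟪w, a⟫ * ⟪w, b⟫)) := by
    refine pair7_int hB (fun w => ⟪w, a⟫ * ⟪w, b⟫) (by fun_prop) (‖a‖ * ‖b‖) 2 fun w => ?_
    rw [abs_mul]
    have h1 := abs_real_inner_le_norm w a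
    have h2 := abs_real_inner_le_norm w b
    calc |⟪w, a⟫| * |⟪w, b⟫| ≤ (‖w‖ * ‖a‖) * (‖w‖ * ‖b‖) :=
          mul_le_mul h1 h2 (abs_nonneg _) (by positivity)
      _ = (‖a‖ * ‖b‖) * ‖w‖ ^ 2 := by ring
      _ ≤ (‖a‖ * ‖b‖) * (1 + ‖w‖) ^ 2 := by
          refine mul_le_mul_of_nonneg_left ?_ (by positivity)
          exact pow_le_pow_left₀ (norm_nonneg w) (by linarith) 2
  have j1 : Integrable (fun w : X d => p * q * ga (4 / s ^ 2) w) := hi0.const_mul _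
  have j2 : Integrable (fun w : X d => (p * c) * (ga (4 / s ^ 2) w * ⟪w, b⟫)) :=
    (hi1 b).const_mul _
  have j3 : Integrable (fun w : X d => (q * c) * (ga (4 / s ^ 2) w * ⟪w, a⟫)) :=
    (hi1 a).const_mul _
  have j4 : Integrable (fun w : X d => c ^ 2 * (ga (4 / s ^ 2) w * (⟪w, a⟫ * ⟪w, b⟫))) :=
    hi2.const_mul _
  have j12 : Integrable (fun w : X d => p * q * ga (4 / s ^ 2) w +
      (p * c) * (ga (4 / s ^ 2) w * ⟪w, b⟫)) := j1.add j2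
  have j123 : Integrable (fun w : X d => p * q * ga (4 / s ^ 2) w +
      (p * c) * (ga (4 / s ^ 2) w * ⟪w, b⟫) + (q * c) * (ga (4 / s ^ 2) w * ⟪w, a⟫)) := j12.add j3
  rw [integral_add j123 j4, integral_add j12 j3, integral_add j1 j2, integral_const_mul,
    integral_const_mul, integral_const_mul, integral_const_mul, ga_odd, ga_odd, ga_second hB]
  have hgc : ∫ w : X d, ga (4 / s ^ 2) w = s ^ d * gc d 4 := pair7_gc hs
  have hgc' : gc d (4 / s ^ 2) = s ^ d * gc d 4 := pair7_gc hs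
  rw [hgc, hgc']
  have ha : ⟪a, h⟫ = 1 / 2 * ⟪a, a - b⟫ := by rw [hh, inner_smul_right]
  have hb : ⟪b, h⟫ = -(1 / 2 * ⟪b, b - a⟫) := by
    rw [hh, inner_smul_right, inner_sub_right, inner_sub_right]
    ring
  have hab : ‖a - b‖ ^ 2 = ⟪a, a - b⟫ + ⟪b, b - a⟫ := by
    rw [← real_inner_self_eq_norm_sq]
    simp only [inner_sub_left, inner_sub_right]
    ring
  rw [hp, hq, hc, ha, hb]
  unfold mta
  have hE : α ^ 2 - 2 * α * ‖a - b‖ ^ 2 / s ^ 2 + 2 * ⟪a, b⟫ / s ^ 2 +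
      4 * (⟪a, a - b⟫ * ⟪b, b - a⟫) / s ^ 4 =
      (α - 2 * (2 / s ^ 2) * (1 / 2 * ⟪a, a - b⟫)) *
        (α + 2 * (2 / s ^ 2) * -(1 / 2 * ⟪b, b - a⟫)) + 2 * ⟪a, b⟫ / s ^ 2 := by
    rw [hab]
    field_simp
    ring
  rw [hE]
  field_simp
  ring

theorem gauss_pair7 {s : ℝ} (hs : 0 < s) (α : ℝ) (z x x' : X d) :
    ∫ Y : X d, ek α (2 / s ^ 2) z x Y * ek α (2 / s ^ 2) z x' Y =
      s ^ d * gc d 4 * mta α (x - z) (x' - z) s := by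
  rw [← pair7_aux hs α (x - z) (x' - z) z]
  unfold ek
  simp only [add_sub_cancel]

end Pool.Agent.H48.R7
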