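import Pool.Agent.H48.R7.QjD
import Pool.Agent.H48.R7.Six

/-!
jm_mom.  Template: Qj_mom, Qj_mean, Qj_b_ge, Qj_b_le, Qj_b_eq in Pool/Agent/H1/LD/Qj.lean: ga_square with
b₁ = β, b₂ = jb β, then gauss_six with b = β + jb β, κ = β⁻¹ (β + jb β), κ²/(2 b) = js β.
-/

set_option autoImplicit false

open MeasureTheory Filter Topology Metric Set
open scoped RealInnerProductSpace ENNReal

namespace Pool.Agent.H48.R7

open Pool.Agent.RZ Pool.Agent.H1.LD

variable {d : ℕ}

private theorem QjA_b_ge {β : ℝ} (h : 8 ≤ β) : 4 ≤ jb β := by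
  unfold jb
  rw [le_div_iff₀ (by linarith)]
  linarith

private theorem QjA_b_eq {β : ℝ} (h : 8 ≤ β) : β * jb β / (β + jb β) = 4 := by
  have h1 : jb β * (β - 4) = 4 * β := by
    unfold jb
    rw [div_mul_cancel₀]
    linarith
  have h2 := QjA_b_ge h
  rw [div_eq_iff (by linarith)]
  linarith

private theorem QjA_mean {β : ℝ} (h : 8 ≤ β) (v p w : X d) :
    jq β p ((β + jb β)⁻¹ • (β • v + jb β • p) + w) = v + (β⁻¹ * (β + jb β)) • w := by
  have h1 := QjA_b_ge h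
  have h2 : β + jb β ≠ 0 := by linarith
  have h3 : β ≠ 0 := by linarith
  unfold jq
  rw [smul_add (β + jb β), smul_smul, mul_inv_cancel₀ h2, one_smul]
  have : β • v + jb β • p + (β + jb β) • w - jb β • p = β • v + (β + jb β) • w := by
    abel
  rw [this, smul_add, smul_smul, smul_smul, inv_mul_cancel₀ h3, one_smul]

private noncomputable def QjA_f (β : ℝ) (p Y : X d) : ℝ :=
  (gc d (β + jb β))⁻¹ * (‖jq β p Y‖ ^ 6 - 3 * (d + 4) * js β * ‖jq β p Y‖ ^ 4 +
    3 * (d + 2) * (d + 4) * js β ^ 2 * ‖jq β p Y‖ ^ 2 - d * (d + 2) * (d + 4) * js β ^ 3)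

theorem jm_mom {β : ℝ} (h : 8 ≤ β) (v p : X d) :
    ∫ Y : X d, ga β (v - Y) * jm β p Y = ‖v‖ ^ 6 * ga 4 (v - p) := by
  have h1 := QjA_b_ge h
  have hβ : 0 < β := by linarith
  have hb : 0 < jb β := by linarith
  have hs : 0 < β + jb β := by linarith
  have e : ∀ Y : X d, ga β (v - Y) * jm β p Y =
      (ga β (v - Y) * ga (jb β) (Y - p)) • QjA_f β p Y := by
    intro Y
    unfold jm QjA_f
    rw [smul_eq_mul]
    ring
  rw [integral_congr_ae (Eventually.of_forall e),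
    ga_square hβ hb v p (fun Y => QjA_f β p Y), QjA_b_eq h]
  have hκ : 0 < β⁻¹ * (β + jb β) := by positivity
  have hg := gc_pos (d := d) hs
  have e2 : ∀ w : X d, ga (β + jb β) w •
      QjA_f β p ((β + jb β)⁻¹ • (β • v + jb β • p) + w) =
      (gc d (β + jb β))⁻¹ * (ga (β + jb β) w *
        (‖v + (β⁻¹ * (β + jb β)) • w‖ ^ 6 -
          3 * (d + 4) * ((β⁻¹ * (β + jb β)) ^ 2 / (2 * (β + jb β))) *
            ‖v + (β⁻¹ * (β + jb β)) • w‖ ^ 4 +
          3 * (d + 2) * (d + 4) * ((β⁻¹ * (β + jb β)) ^ 2 / (2 * (β + jb β))) ^ 2 *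
            ‖v + (β⁻¹ * (β + jb β)) • w‖ ^ 2 -
          d * (d + 2) * (d + 4) * ((β⁻¹ * (β + jb β)) ^ 2 / (2 * (β + jb β))) ^ 3)) := by
    intro w
    have hσ : js β = (β⁻¹ * (β + jb β)) ^ 2 / (2 * (β + jb β)) := by
      unfold js
      field_simp
    unfold QjA_f
    rw [QjA_mean h, hσ, smul_eq_mul]
    ring
  rw [integral_congr_ae (Eventually.of_forall e2), integral_const_mul,
    gauss_six hs hκ v, smul_eq_mul]
  field_simp

end Pool.Agent.H48.R7
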