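import Pool.Agent.H48.R7.Defs

/-!
The test function of the representation formula: definition.
-/

set_option autoImplicit false

open MeasureTheory Filter Topology Metric Set
open scoped RealInnerProductSpace ENNReal

namespace Pool.Agent.H48.R7

open Pool.Agent.RZ Pool.Agent.H1.LD

variable {d : ℕ}

/-- the parameter `b'` with `β b' / (β + b') = 4` -/
noncomputable def jb (β : ℝ) : ℝ := 4 * β / (β - 4)

/-- the affine map `q` -/
noncomputable def jq (β : ℝ) (p Y : X d) : X d := β⁻¹ • ((β + jb β) • Y - jb β • p)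

/-- the variance -/
noncomputable def js (β : ℝ) : ℝ := (β + jb β) / (2 * β ^ 2)

/-- the test function -/
noncomputable def jm (β : ℝ) (p Y : X d) : ℝ :=
  (gc d (β + jb β))⁻¹ * (‖jq β p Y‖ ^ 6 - 3 * (d + 4) * js β * ‖jq β p Y‖ ^ 4 +
    3 * (d + 2) * (d + 4) * js β ^ 2 * ‖jq β p Y‖ ^ 2 - d * (d + 2) * (d + 4) * js β ^ 3) *
    ga (jb β) (Y - p)

end Pool.Agent.H48.R7
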